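import Pool.Agent.H33.G.R_seed8.H319R3.GC.F2

/-! F3: the convolution inequality for `Gam`. -/

set_option autoImplicit false

namespace Pool.Agent.H319R3.GC

open Finset

/-- the pairs of a product family in given classes, as a convolution -/
theorem piece_card {ι ι' : Type*} (s : Finset ι) (s' : Finset ι') (v : ι → ℤ) (v' : ι' → ℤ)
    {u M : ℤ} (hM : M ≠ 0) {D R : ℕ} (hD : 0 < D) (hR : 0 < R) {A : ℕ} (hA : A = M.natAbs * D)
    (hu : IsCoprime u ((A * R : ℕ) : ℤ)) {α β : ℕ} (hα : α < A) (hβ : β < D) {c e : ℤ}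
    (he : u * α + M * β - c = A * e) (a : ℤ) :
    ((((s ×ˢ s').filter (fun q => ((A * R : ℕ) : ℤ) ∣ u * v q.1 + M * v' q.2 - (c + A * a))).filter
      (fun q => ((v q.1 % A).toNat, (v' q.2 % D).toNat) = (α, β))).card : ℝ) =
    ∑ b ∈ range R, cnt s (fun i => u * v i) (A * R) (u * α + A * (b : ℤ)) *
      cnt s' (fun i => M * v' i) (A * R) (M * β + A * (a - b - e)) := by
  classical
  have hM0 : 0 < M.natAbs := Int.natAbs_pos.2 hM
  have hA0 : 0 < A := by rw [hA]; exact Nat.mul_pos hM0 hD
  have hA' : (0 : ℤ) < A := by exact_mod_cast hA0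
  have hR' : (0 : ℤ) < R := by exact_mod_cast hR
  have hAR : ((A * R : ℕ) : ℤ) = (A : ℤ) * R := by push_cast; ring
  have huA : IsCoprime (A : ℤ) u := by
    rw [hAR] at hu
    exact hu.of_mul_right_left.symm
  have hMA : ∀ x : ℤ, (A : ℤ) ∣ M * x ↔ (D : ℤ) ∣ x := by
    intro x
    have h1 : (A : ℤ) = (M.natAbs : ℤ) * D := by rw [hA]; push_cast; ring
    rw [h1]
    constructor
    · intro h
      have h2 : (M.natAbs : ℤ) * D ∣ (M.natAbs : ℤ) * x := by
        rcases Int.natAbs_eq M with h3 | h3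
        · rw [h3] at h
          simpa using h
        · rw [h3] at h
          have h4 : (M.natAbs : ℤ) * D ∣ -((M.natAbs : ℤ) * x) := by
            have e5 : -((M.natAbs : ℤ) * x) = -(M.natAbs : ℤ) * x := by ring
            rw [e5]
            simpa using h
          exact (dvd_neg.1 h4)
      exact (mul_dvd_mul_iff_left (by exact_mod_cast hM0.ne')).1 h2
    · rintro ⟨k, rfl⟩
      rcases Int.natAbs_eq M with h3 | h3
      · refine ⟨k, ?_⟩
        nth_rewrite 1 [h3]
        ring
      · refine ⟨-k, ?_⟩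
        nth_rewrite 1 [h3]
        ring
  have h := card_eq_sum_card_fiberwise
    (s := ((s ×ˢ s').filter (fun q => ((A * R : ℕ) : ℤ) ∣ u * v q.1 + M * v' q.2 - (c + A * a))).filter
      (fun q => ((v q.1 % A).toNat, (v' q.2 % D).toNat) = (α, β)))
    (t := range R) (f := fun q => (((u * v q.1 - u * α) / A) % R).toNat) (by
      intro q _
      rw [mem_coe, mem_range]
      have h1 := Int.emod_lt_of_pos ((u * v q.1 - u * α) / A) hR'
      have h2 := Int.emod_nonneg ((u * v q.1 - u * α) / A) hR'.ne'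
      show (((u * v q.1 - u * α) / A) % R).toNat < R
      omega)
  rw [h, Nat.cast_sum]
  refine sum_congr rfl fun b hb => ?_
  have hb' := mem_range.1 hb
  unfold cnt
  rw [← Nat.cast_mul (α := ℝ), ← card_product]
  congr 2
  ext ⟨i, i'⟩
  simp only [mem_filter, mem_product, Prod.mk.injEq]
  rw [← dvd_emod_iff hA0 (v i) hα, ← dvd_emod_iff hD (v' i') hβ, ← dvd_emod_iff hR _ hb']
  constructor
  · rintro ⟨⟨⟨⟨hi, hi'⟩, h1⟩, ⟨k, hk⟩, h3⟩, h4⟩
    have e1 : u * v i - u * α = A * (u * k) := by
      have : v i = α + A * k := by linarith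
      rw [this]; ring
    rw [e1, Int.mul_ediv_cancel_left _ hA'.ne'] at h4
    have h5 : ((A * R : ℕ) : ℤ) ∣ u * v i - (u * α + A * b) := by
      have e2 : u * v i - (u * α + A * b) = A * (u * k - b) := by linarith
      rw [e2, hAR]
      exact mul_dvd_mul_left _ h4
    refine ⟨⟨hi, h5⟩, hi', ?_⟩
    have e3 : M * v' i' - (M * β + A * (a - b - e)) =
        (u * v i + M * v' i' - (c + A * a)) - (u * v i - (u * α + A * b)) := by linarith
    rw [e3]
    exact dvd_sub h1 h5
  · rintro ⟨⟨hi, h5⟩, hi', h6⟩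
    have h7 : (A : ℤ) ∣ u * v i - (u * α + A * b) := dvd_trans ⟨R, hAR⟩ h5
    have h8 : (A : ℤ) ∣ v i - α := by
      apply huA.dvd_of_dvd_mul_left
      have e4 : u * (v i - α) = (u * v i - (u * α + A * b)) + A * b := by ring
      rw [e4]
      exact dvd_add h7 (dvd_mul_right _ _)
    have h9 : (D : ℤ) ∣ v' i' - β := by
      rw [← hMA]
      have e5 : M * (v' i' - β) = (M * v' i' - (M * β + A * (a - b - e))) + A * (a - b - e) := by
        ring
      rw [e5]
      exact dvd_add (dvd_trans ⟨R, hAR⟩ h6) (dvd_mul_right _ _)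
    have h10 : ((A * R : ℕ) : ℤ) ∣ u * v i + M * v' i' - (c + A * a) := by
      have e6 : u * v i + M * v' i' - (c + A * a) =
          (M * v' i' - (M * β + A * (a - b - e))) + (u * v i - (u * α + A * b)) := by linarith
      rw [e6]
      exact dvd_add h6 h5
    refine ⟨⟨⟨⟨hi, hi'⟩, h10⟩, h8, h9⟩, ?_⟩
    obtain ⟨k, hk⟩ := h5
    have e7 : u * v i - u * α = A * (b + R * k) := by
      rw [hAR] at hk
      linarith
    rw [e7, Int.mul_ediv_cancel_left _ hA'.ne']
    exact ⟨k, by ring⟩

/-- the values of a product family are `u v + M v'` -/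
theorem Gam_conv {ι ι' : Type*} (s : Finset ι) (s' : Finset ι') (v : ι → ℤ) (v' : ι' → ℤ)
    {u M : ℤ} (hM : M ≠ 0) {D R : ℕ} (hD : 0 < D) (hR : 1 ≤ R)
    (hu : IsCoprime u ((M.natAbs * D * R : ℕ) : ℤ)) :
    Gam (s ×ˢ s') (fun p => u * v p.1 + M * v' p.2) (M.natAbs * D) R
      ≤ Gam s v (M.natAbs * D) R * Gam s' v' D R := by
  classical
  have hM0 : 0 < M.natAbs := Int.natAbs_pos.2 hM
  obtain ⟨A, hA⟩ : ∃ A : ℕ, A = M.natAbs * D := ⟨_, rfl⟩
  rw [← hA] at hu ⊢
  have hA0 : 0 < A := by rw [hA]; exact Nat.mul_pos hM0 hD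
  have hA' : (0 : ℤ) < A := by exact_mod_cast hA0
  have hD' : (0 : ℤ) < D := by exact_mod_cast hD
  have hAR : ((A * R : ℕ) : ℤ) = (A : ℤ) * R := by push_cast; ring
  have huR : IsCoprime u (R : ℤ) := by
    rw [hAR] at hu
    exact hu.of_mul_right_right
  set P : Finset (ℕ × ℕ) := range A ×ˢ range D with hP
  set w : ℕ × ℕ → ℝ := fun p => Fib s v A R (p.1 : ℤ) * Fib s' v' D R (p.2 : ℤ) with hw
  set V : ι × ι' → ℤ := fun p => u * v p.1 + M * v' p.2 with hV
  -- one class
  have hone : ∀ c : ℤ, Fib (s ×ˢ s') V A R c ≤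
      ∑ p ∈ P.filter (fun p => (A : ℤ) ∣ u * p.1 + M * p.2 - c), w p := by
    intro c
    set Pc := P.filter (fun p : ℕ × ℕ => (A : ℤ) ∣ u * p.1 + M * p.2 - c) with hPc
    set F : ℕ × ℕ → ℤ → ℝ := fun p x => cnt s (fun i => u * v i) (A * R) (u * p.1 + A * x) with hF
    set G : ℕ × ℕ → ℤ → ℝ := fun p x =>
      cnt s' (fun i => M * v' i) (A * R) (M * p.2 + A * (x - (u * p.1 + M * p.2 - c) / A)) with hG
    have hdec : ∀ a : ℕ, cnt (s ×ˢ s') V (A * R) (c + A * a) =
        ∑ p ∈ Pc, ∑ b ∈ range R, F p b * G p (a - b) := by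
      intro a
      unfold cnt
      have h := card_eq_sum_card_fiberwise
        (s := (s ×ˢ s').filter (fun q => ((A * R : ℕ) : ℤ) ∣ V q - (c + A * a)))
        (t := Pc) (f := fun q => ((v q.1 % A).toNat, (v' q.2 % D).toNat)) (by
          rintro ⟨i, i'⟩ hq
          rw [mem_coe, mem_filter, mem_product] at hq
          obtain ⟨⟨hi, hi'⟩, hdv⟩ := hq
          rw [mem_coe, hPc, mem_filter, hP, mem_product, mem_range, mem_range]
          have h1 := Int.emod_lt_of_pos (v i) hA'
          have h2 := Int.emod_nonneg (v i) hA'.ne'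
          have h3 := Int.emod_lt_of_pos (v' i') hD'
          have h4 := Int.emod_nonneg (v' i') hD'.ne'
          refine ⟨⟨?_, ?_⟩, ?_⟩
          · show (v i % A).toNat < A
            omega
          · show (v' i' % D).toNat < D
            omega
          · show (A : ℤ) ∣ u * ((v i % A).toNat : ℤ) + M * ((v' i' % D).toNat : ℤ) - c
            rw [Int.toNat_of_nonneg h2, Int.toNat_of_nonneg h4]
            have h5 : (A : ℤ) ∣ V (i, i') - (c + A * a) := dvd_trans ⟨R, hAR⟩ hdv
            have h6 : (A : ℤ) ∣ v i - v i % A := Int.dvd_self_sub_emod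
            have h7 : (D : ℤ) ∣ v' i' - v' i' % D := Int.dvd_self_sub_emod
            have h8 : (A : ℤ) ∣ M * (v' i' - v' i' % D) := by
              obtain ⟨k, hk⟩ := h7
              rw [hk]
              have h9 : (A : ℤ) = (M.natAbs : ℤ) * D := by rw [hA]; push_cast; ring
              rw [h9]
              rcases Int.natAbs_eq M with h3 | h3
              · refine ⟨k, ?_⟩
                nth_rewrite 1 [h3]
                ring
              · refine ⟨-k, ?_⟩
                nth_rewrite 1 [h3]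
                ring
            have e : u * (v i % A) + M * (v' i' % D) - c =
                (V (i, i') - (c + A * a)) - u * (v i - v i % A) - M * (v' i' - v' i' % D) +
                  A * a := by
              simp only [hV]; ring
            rw [e]
            exact dvd_add (dvd_sub (dvd_sub h5 (Dvd.dvd.mul_left h6 _)) h8) (dvd_mul_right _ _))
      rw [h, Nat.cast_sum]
      refine sum_congr rfl fun p hp => ?_
      rw [hPc, mem_filter, hP, mem_product, mem_range, mem_range] at hp
      obtain ⟨⟨hp1, hp2⟩, hp3⟩ := hp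
      have hed : u * p.1 + M * p.2 - c = A * ((u * p.1 + M * p.2 - c) / A) :=
        (Int.mul_ediv_cancel' hp3).symm
      have := piece_card s s' v v' hM hD hR hA hu hp1 hp2 hed (a : ℤ)
      rw [show (p : ℕ × ℕ) = (p.1, p.2) from rfl]
      refine this.trans ?_
      refine sum_congr rfl fun b _ => ?_
      rfl
    have e1 : Fib (s ×ˢ s') V A R c = FR R (fun a => ∑ p ∈ Pc, ∑ b ∈ range R, F p b * G p (a - b)) :=
      FR_congr fun a _ => hdec a
    rw [e1]
    have hFper : ∀ p x, F p (x + R) = F p x := by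
      intro p x
      refine cnt_congr _ _ ?_
      have e : u * (p.1 : ℤ) + A * (x + R) - (u * p.1 + A * x) = ((A * R : ℕ) : ℤ) := by
        rw [hAR]; ring
      rw [e]
    have hGper : ∀ p x, G p (x + R) = G p x := by
      intro p x
      refine cnt_congr _ _ ?_
      have e : M * (p.2 : ℤ) + A * (x + R - (u * p.1 + M * p.2 - c) / A) -
          (M * p.2 + A * (x - (u * p.1 + M * p.2 - c) / A)) = ((A * R : ℕ) : ℤ) := by
        rw [hAR]; ring
      rw [e]
    refine (FR_sum Pc _ fun p _ a _ => sum_nonneg fun b _ =>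
      mul_nonneg (cnt_nonneg _ _ _ _) (cnt_nonneg _ _ _ _)).trans ?_
    refine sum_le_sum (fun p _ => ?_)
    refine (FR_conv hR (hFper p) (hGper p) (fun _ => cnt_nonneg _ _ _ _)
      (fun _ => cnt_nonneg _ _ _ _)).trans (le_of_eq ?_)
    -- the first factor
    obtain ⟨w', z', hwz⟩ := hu
    -- `w' * u + z' * (A R) = 1`
    have hF1 : FR R (fun a => F p a) = Fib s v A R (p.1 : ℤ) := by
      have hwR : IsCoprime w' (R : ℤ) := ⟨u, z' * A, by rw [hAR] at hwz; linarith⟩
      have := FR_unit hR (f := fun x => cnt s v (A * R) (p.1 + A * x)) (fun x => by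
        refine cnt_congr _ _ ?_
        have e : (p.1 : ℤ) + A * (x + R) - (p.1 + A * x) = ((A * R : ℕ) : ℤ) := by
          rw [hAR]; ring
        rw [e]) hwR 0
      unfold Fib
      rw [← this]
      refine FR_congr fun a _ => ?_
      show cnt s (fun i => u * v i) (A * R) (u * p.1 + A * a) =
        cnt s v (A * R) (p.1 + A * (w' * a + 0))
      unfold cnt
      congr 2
      apply filter_congr
      intro i _
      constructor
      · intro h1
        have e : v i - (p.1 + A * (w' * a + 0)) = w' * (u * v i - (u * p.1 + A * a)) +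
            z' * ((A * R : ℕ) : ℤ) * (v i - p.1) := by
          linear_combination (-(v i : ℤ) + p.1) * hwz
        rw [e]
        exact dvd_add (Dvd.dvd.mul_left h1 _) (Dvd.dvd.mul_right (dvd_mul_left _ _) _)
      · intro h1
        have e : u * v i - (u * p.1 + A * a) = u * (v i - (p.1 + A * (w' * a + 0))) -
            z' * ((A * R : ℕ) : ℤ) * (A * a) := by
          linear_combination (A * a : ℤ) * hwz
        rw [e]
        exact dvd_sub (Dvd.dvd.mul_left h1 _) (Dvd.dvd.mul_right (dvd_mul_left _ _) _)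
    have hG1 : FR R (fun a => G p a) = Fib s' v' D R (p.2 : ℤ) := by
      obtain ⟨σ, hσ1, hσ2⟩ : ∃ σ : ℤ, σ * σ = 1 ∧ M = σ * M.natAbs := by
        rcases Int.natAbs_eq M with h3 | h3
        · exact ⟨1, by ring, by rw [one_mul]; exact h3⟩
        · exact ⟨-1, by ring, by rw [neg_one_mul]; exact h3⟩
      have hσR : IsCoprime σ (R : ℤ) := ⟨σ, 0, by rw [hσ1]; ring⟩
      set e₀ := (u * p.1 + M * p.2 - c) / A with he₀
      have := FR_unit hR (f := fun x => cnt s' v' (D * R) (p.2 + D * x)) (fun x => by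
        refine cnt_congr _ _ ?_
        have e : (p.2 : ℤ) + D * (x + R) - (p.2 + D * x) = ((D * R : ℕ) : ℤ) := by
          push_cast; ring
        rw [e]) hσR (-(σ * e₀))
      unfold Fib
      rw [← this]
      refine FR_congr fun a _ => ?_
      show cnt s' (fun i => M * v' i) (A * R) (M * p.2 + A * (a - e₀)) =
        cnt s' v' (D * R) (p.2 + D * (σ * a + -(σ * e₀)))
      unfold cnt
      congr 2
      apply filter_congr
      intro i _
      have hAz : (A : ℤ) = (M.natAbs : ℤ) * D := by rw [hA]; push_cast; ring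
      have e : M * v' i - (M * p.2 + A * (a - e₀)) =
          (M.natAbs : ℤ) * (σ * (v' i - (p.2 + D * (σ * a + -(σ * e₀))))) := by
        rw [hAz]
        nth_rewrite 1 [hσ2]
        nth_rewrite 2 [hσ2]
        linear_combination ((M.natAbs : ℤ) * D * (a - e₀)) * hσ1
      have e2 : ((A * R : ℕ) : ℤ) = (M.natAbs : ℤ) * ((D * R : ℕ) : ℤ) := by
        rw [hA]; push_cast; ring
      rw [e, e2, mul_dvd_mul_iff_left (by exact_mod_cast hM0.ne' : (M.natAbs : ℤ) ≠ 0)]
      constructor
      · intro h1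
        have h2 := Dvd.dvd.mul_left h1 σ
        rw [← mul_assoc, hσ1, one_mul] at h2
        exact h2
      · intro h1
        exact Dvd.dvd.mul_left h1 σ
    rw [hF1, hG1]
  -- sum over the classes
  unfold Gam
  calc ∑ c ∈ range A, Fib (s ×ˢ s') V A R (c : ℤ)
      ≤ ∑ c ∈ range A, ∑ p ∈ P.filter (fun p => (A : ℤ) ∣ u * p.1 + M * p.2 - (c : ℤ)), w p :=
        sum_le_sum (fun c _ => hone c)
    _ = ∑ c ∈ range A, ∑ p ∈ P.filter (fun p => ((u * p.1 + M * p.2) % A).toNat = c), w p := by
        refine sum_congr rfl fun c hc => ?_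
        refine sum_congr ?_ fun _ _ => rfl
        apply filter_congr
        intro p _
        exact dvd_emod_iff hA0 _ (mem_range.1 hc)
    _ = ∑ p ∈ P, w p := by
        apply sum_fiberwise_of_maps_to
        intro p _
        rw [mem_range]
        have h1 := Int.emod_lt_of_pos (u * p.1 + M * p.2) hA'
        have h2 := Int.emod_nonneg (u * p.1 + M * p.2) hA'.ne'
        omega
    _ = _ := by
        rw [hP, sum_product, sum_mul_sum]

end Pool.Agent.H319R3.GC
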