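import Pool.Agent.H33.G.R_seed8.H319R3.GC.Defs
import Pool.Agent.H33.G.R_seed8.H319R3.GC.W1
import Pool.Agent.H33.G.R_seed8.H319R3.GC.F2
import Pool.Agent.H33.G.R_seed8.H319R3.GC.F3

/-! Task SP: splitting words (helper777). -/

set_option autoImplicit false

namespace Pool.Agent.H319R3.GC.SP

open Finset
open Pool.Agent.H319R3.GC

variable {d : ℕ} {m r : ℕ → ℤ}

/-- the word `u v w` from `(w, (v, u))` -/
def joinW (p : List ℕ × (List ℕ × List ℕ)) : List ℕ := (p.2.2 ++ p.2.1) ++ p.1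

theorem Gam_congr {ι : Type*} (s : Finset ι) {v v' : ι → ℤ} (h : ∀ i ∈ s, v i = v' i) (D R : ℕ) :
    Gam s v D R = Gam s v' D R := by
  have hc : ∀ (N : ℕ) (c : ℤ), cnt s v N c = cnt s v' N c := by
    intro N c
    unfold cnt
    congr 2
    exact Finset.filter_congr fun i hi => by rw [h i hi]
  unfold Gam Fib
  simp only [hc]

theorem Gam_biUnion' {ι κ : Type*} [inst : DecidableEq ι] (J : Finset κ) (S : κ → Finset ι)
    (hS : ∀ j ∈ J, ∀ j' ∈ J, j ≠ j' → Disjoint (S j) (S j')) (v : ι → ℤ) (D R : ℕ) :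
    Gam (J.biUnion S) v D R ≤ ∑ j ∈ J, Gam (S j) v D R := by
  obtain rfl : inst = fun a b => Classical.propDecidable (a = b) := Subsingleton.elim _ _
  exact Gam_biUnion J S hS v D R

theorem Gam_image' {ι ι' : Type*} [inst : DecidableEq ι] (s : Finset ι') (φ : ι' → ι)
    (hφ : Set.InjOn φ (s : Set ι')) (v : ι → ℤ) (D R : ℕ) :
    Gam (s.image φ) v D R = Gam s (fun i => v (φ i)) D R := by
  obtain rfl : inst = fun a b => Classical.propDecidable (a = b) := Subsingleton.elim _ _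
  exact Gam_image s φ hφ v D R

theorem mem_gr' {k : ℕ} {M : ℤ} {w : List ℕ} :
    w ∈ gr d m k M ↔ (w.length = k ∧ ∀ i ∈ w, i < d) ∧ Mw m w = M := by
  rw [mem_gr, mem_LW]

theorem mem_Ms {k : ℕ} {M : ℤ} : M ∈ Ms d m k ↔ ∃ w, (w.length = k ∧ ∀ i ∈ w, i < d) ∧ Mw m w = M := by
  unfold Ms
  rw [Finset.mem_image]
  constructor
  · rintro ⟨w, hw, h⟩
    exact ⟨w, mem_LW.1 hw, h⟩
  · rintro ⟨w, hw, h⟩
    exact ⟨w, mem_LW.2 hw, h⟩

open scoped Classical in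
/-- words with given multipliers of the three parts -/
noncomputable def Fam (d : ℕ) (m : ℕ → ℤ) (k' b t : ℕ) (j : ℤ × (ℤ × ℤ)) : Finset (List ℕ) :=
  ((gr d m t j.2.2) ×ˢ ((gr d m b j.2.1) ×ˢ (gr d m k' j.1))).image joinW

theorem mem_Fam {k' b t : ℕ} {j : ℤ × (ℤ × ℤ)} {x : List ℕ} : x ∈ Fam d m k' b t j ↔
    ∃ u v w, u ∈ gr d m k' j.1 ∧ v ∈ gr d m b j.2.1 ∧ w ∈ gr d m t j.2.2 ∧ (u ++ v) ++ w = x := by
  classical
  unfold Fam
  rw [Finset.mem_image]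
  constructor
  · rintro ⟨⟨w, v, u⟩, h, rfl⟩
    rw [Finset.mem_product, Finset.mem_product] at h
    exact ⟨u, v, w, h.2.2, h.2.1, h.1, rfl⟩
  · rintro ⟨u, v, w, hu, hv, hw, rfl⟩
    exact ⟨(w, (v, u)), Finset.mem_product.2 ⟨hw, Finset.mem_product.2 ⟨hv, hu⟩⟩, rfl⟩

open scoped Classical in
theorem gr_eq (k' b t : ℕ) (M : ℤ) : gr d m (k' + b + t) M =
    ((Ms d m k' ×ˢ (Ms d m b ×ˢ Ms d m t)).filter (fun j => j.1 * j.2.1 * j.2.2 = M)).biUnion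
      (Fam d m k' b t) := by
  ext x
  rw [Finset.mem_biUnion]
  constructor
  · intro hx
    obtain ⟨⟨hl, hx⟩, hM⟩ := mem_gr'.1 hx
    have hsplit : (x.take k' ++ (x.drop k').take b) ++ x.drop (k' + b) = x := by
      rw [List.append_assoc, ← List.drop_drop, List.take_append_drop, List.take_append_drop]
    have h1 : (x.take k').length = k' := by
      rw [List.length_take]
      omega
    have h2 : ((x.drop k').take b).length = b := by
      rw [List.length_take, List.length_drop]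
      omega
    have h3 : (x.drop (k' + b)).length = t := by
      rw [List.length_drop]
      omega
    refine ⟨(Mw m (x.take k'), Mw m ((x.drop k').take b), Mw m (x.drop (k' + b))), ?_, ?_⟩
    · rw [Finset.mem_filter, Finset.mem_product, Finset.mem_product]
      refine ⟨⟨mem_Ms.2 ⟨_, ⟨h1, fun i hi => hx i (List.mem_of_mem_take hi)⟩, rfl⟩,
        mem_Ms.2 ⟨_, ⟨h2, fun i hi => hx i (List.mem_of_mem_drop (List.mem_of_mem_take hi))⟩, rfl⟩,
        mem_Ms.2 ⟨_, ⟨h3, fun i hi => hx i (List.mem_of_mem_drop hi)⟩, rfl⟩⟩, ?_⟩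
      show Mw m (x.take k') * Mw m ((x.drop k').take b) * Mw m (x.drop (k' + b)) = M
      rw [← Mw_append, ← Mw_append, hsplit, hM]
    · exact mem_Fam.2 ⟨_, _, _, mem_gr'.2 ⟨⟨h1, fun i hi => hx i (List.mem_of_mem_take hi)⟩, rfl⟩,
        mem_gr'.2 ⟨⟨h2, fun i hi => hx i (List.mem_of_mem_drop (List.mem_of_mem_take hi))⟩, rfl⟩,
        mem_gr'.2 ⟨⟨h3, fun i hi => hx i (List.mem_of_mem_drop hi)⟩, rfl⟩, hsplit⟩
  · rintro ⟨j, hj, hx⟩
    obtain ⟨u, v, w, hu, hv, hw, rfl⟩ := mem_Fam.1 hx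
    obtain ⟨⟨hu1, hu2⟩, hu3⟩ := mem_gr'.1 hu
    obtain ⟨⟨hv1, hv2⟩, hv3⟩ := mem_gr'.1 hv
    obtain ⟨⟨hw1, hw2⟩, hw3⟩ := mem_gr'.1 hw
    refine mem_gr'.2 ⟨⟨?_, ?_⟩, ?_⟩
    · rw [List.length_append, List.length_append, hu1, hv1, hw1]
    · intro i hi
      rw [List.mem_append, List.mem_append] at hi
      rcases hi with (hi | hi) | hi
      · exact hu2 i hi
      · exact hv2 i hi
      · exact hw2 i hi
    · rw [Mw_append, Mw_append, hu3, hv3, hw3]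
      exact (Finset.mem_filter.1 hj).2

theorem Fam_disjoint {k' b t : ℕ} {j j' : ℤ × (ℤ × ℤ)} (h : j ≠ j') :
    Disjoint (Fam d m k' b t j) (Fam d m k' b t j') := by
  rw [Finset.disjoint_left]
  intro x hx hx'
  obtain ⟨u, v, w, hu, hv, hw, rfl⟩ := mem_Fam.1 hx
  obtain ⟨u', v', w', hu', hv', hw', he⟩ := mem_Fam.1 hx'
  obtain ⟨⟨hu1, -⟩, hu3⟩ := mem_gr'.1 hu
  obtain ⟨⟨hv1, -⟩, hv3⟩ := mem_gr'.1 hv
  obtain ⟨⟨hw1, -⟩, hw3⟩ := mem_gr'.1 hw
  obtain ⟨⟨hu1', -⟩, hu3'⟩ := mem_gr'.1 hu'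
  obtain ⟨⟨hv1', -⟩, hv3'⟩ := mem_gr'.1 hv'
  obtain ⟨⟨hw1', -⟩, hw3'⟩ := mem_gr'.1 hw'
  obtain ⟨e1, e2⟩ := List.append_inj he (by rw [List.length_append, List.length_append]; omega)
  obtain ⟨e3, e4⟩ := List.append_inj e1 (by omega)
  apply h
  rw [← e3, hu3'] at hu3
  rw [← e4, hv3'] at hv3
  rw [← e2, hw3'] at hw3
  exact Prod.ext hu3.symm (Prod.ext hv3.symm hw3.symm)

theorem joinW_inj (k' b t : ℕ) (M1 Mb Mt : ℤ) : Set.InjOn joinW
    (((gr d m t Mt) ×ˢ ((gr d m b Mb) ×ˢ (gr d m k' M1)) : Finset (List ℕ × (List ℕ × List ℕ))) :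
      Set (List ℕ × (List ℕ × List ℕ))) := by
  rintro ⟨w, v, u⟩ hp ⟨w', v', u'⟩ hp' he
  rw [Finset.mem_coe, Finset.mem_product, Finset.mem_product] at hp hp'
  obtain ⟨hw, hv, hu⟩ := hp
  obtain ⟨hw', hv', hu'⟩ := hp'
  obtain ⟨⟨hu1, -⟩, -⟩ := mem_gr'.1 hu
  obtain ⟨⟨hv1, -⟩, -⟩ := mem_gr'.1 hv
  obtain ⟨⟨hw1, -⟩, -⟩ := mem_gr'.1 hw
  obtain ⟨⟨hu1', -⟩, -⟩ := mem_gr'.1 hu'
  obtain ⟨⟨hv1', -⟩, -⟩ := mem_gr'.1 hv'
  obtain ⟨⟨hw1', -⟩, -⟩ := mem_gr'.1 hw'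
  replace he : (u ++ v) ++ w = (u' ++ v') ++ w' := he
  dsimp only at hu1 hv1 hw1 hu1' hv1' hw1'
  obtain ⟨e1, e2⟩ := List.append_inj he (by rw [List.length_append, List.length_append]; omega)
  obtain ⟨e3, e4⟩ := List.append_inj e1 (by omega)
  exact Prod.ext e2 (Prod.ext e4 e3)

theorem cop_dvd (D R d n M : ℕ) (hM : M ∣ D) (hDd : Nat.Coprime D d) (hRd : Nat.Coprime R d) :
    IsCoprime ((d : ℤ) ^ n) ((M * (D / M) * R : ℕ) : ℤ) := by
  rw [Nat.mul_div_cancel' hM, Nat.cast_mul]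
  refine IsCoprime.pow_left ?_
  refine IsCoprime.mul_right ?_ ?_
  · exact Nat.isCoprime_iff_coprime.2 hDd.symm
  · exact Nat.isCoprime_iff_coprime.2 hRd.symm

/-- two factors: prefix and block -/
theorem two_le (h : Adm d m r) {k' b D R : ℕ} {M1 Mb : ℤ} (hMb : Mb ∈ Ms d m b) (hD : 0 < D)
    (hDd : Nat.Coprime D d) (hR : 1 ≤ R) (hRd : Nat.Coprime R d) (hdvd : Mb.natAbs ∣ D) :
    Gam ((gr d m b Mb) ×ˢ (gr d m k' M1)) (fun p => Ww d m r (p.2 ++ p.1)) D R ≤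
      Gam (gr d m b Mb) (Ww d m r) D R * Gam (gr d m k' M1) (Ww d m r) (D / Mb.natAbs) R := by
  obtain ⟨w, hw, rfl⟩ := mem_Ms.1 hMb
  have hne : Mw m w ≠ 0 := Mw_ne_zero h hw.2
  have hpos : 0 < (Mw m w).natAbs := Int.natAbs_pos.2 hne
  have hq : 0 < D / (Mw m w).natAbs := Nat.div_pos (Nat.le_of_dvd hD hdvd) hpos
  have e : Gam ((gr d m b (Mw m w)) ×ˢ (gr d m k' M1)) (fun p => Ww d m r (p.2 ++ p.1)) D R
      = Gam ((gr d m b (Mw m w)) ×ˢ (gr d m k' M1))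
          (fun p => (d : ℤ) ^ k' * Ww d m r p.1 + Mw m w * Ww d m r p.2) D R := by
    refine Gam_congr _ ?_ D R
    rintro ⟨v, u⟩ hp
    rw [Finset.mem_product] at hp
    obtain ⟨⟨hv1, -⟩, hv3⟩ := mem_gr'.1 hp.1
    obtain ⟨⟨hu1, -⟩, -⟩ := mem_gr'.1 hp.2
    dsimp only at hv3 hu1 ⊢
    rw [Ww_append, hv3, hu1]
    ring
  rw [e]
  have key := Gam_conv (gr d m b (Mw m w)) (gr d m k' M1) (Ww d m r) (Ww d m r)
    (u := (d : ℤ) ^ k') hne hq hR (cop_dvd D R d k' _ hdvd hDd hRd)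
  rw [Nat.mul_div_cancel' hdvd] at key
  exact key

/-- three factors -/
theorem three_le (h : Adm d m r) {k' b t D R : ℕ} {M1 Mb Mt : ℤ} (hMt : Mt ∈ Ms d m t) (hD : 0 < D)
    (hDd : Nat.Coprime D d) (hR : 1 ≤ R) (hRd : Nat.Coprime R d) (hdvd : Mt.natAbs ∣ D) :
    Gam (Fam d m k' b t (M1, (Mb, Mt))) (Ww d m r) D R ≤
      Gam (gr d m t Mt) (Ww d m r) D R *
        Gam ((gr d m b Mb) ×ˢ (gr d m k' M1)) (fun p => Ww d m r (p.2 ++ p.1)) (D / Mt.natAbs) R := by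
  obtain ⟨w, hw, rfl⟩ := mem_Ms.1 hMt
  have hne : Mw m w ≠ 0 := Mw_ne_zero h hw.2
  have hpos : 0 < (Mw m w).natAbs := Int.natAbs_pos.2 hne
  have hq : 0 < D / (Mw m w).natAbs := Nat.div_pos (Nat.le_of_dvd hD hdvd) hpos
  have e0 : Fam d m k' b t (M1, (Mb, Mw m w))
      = ((gr d m t (Mw m w)) ×ˢ ((gr d m b Mb) ×ˢ (gr d m k' M1))).image joinW := rfl
  rw [e0, Gam_image' _ _ (joinW_inj k' b t M1 Mb (Mw m w))]
  have e : Gam ((gr d m t (Mw m w)) ×ˢ ((gr d m b Mb) ×ˢ (gr d m k' M1)))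
        (fun p => Ww d m r (joinW p)) D R
      = Gam ((gr d m t (Mw m w)) ×ˢ ((gr d m b Mb) ×ˢ (gr d m k' M1)))
          (fun p => (d : ℤ) ^ (k' + b) * Ww d m r p.1 + Mw m w * Ww d m r (p.2.2 ++ p.2.1)) D R := by
    refine Gam_congr _ ?_ D R
    rintro ⟨w', v, u⟩ hp
    rw [Finset.mem_product, Finset.mem_product] at hp
    obtain ⟨⟨hw1, -⟩, hw3⟩ := mem_gr'.1 hp.1
    obtain ⟨⟨hv1, -⟩, hv3⟩ := mem_gr'.1 hp.2.1
    obtain ⟨⟨hu1, -⟩, -⟩ := mem_gr'.1 hp.2.2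
    dsimp only at hw3 hv1 hu1 ⊢
    unfold joinW
    dsimp only
    rw [Ww_append (u ++ v) w', hw3, List.length_append, hu1, hv1]
    ring
  rw [e]
  have key := Gam_conv (gr d m t (Mw m w)) ((gr d m b Mb) ×ˢ (gr d m k' M1)) (Ww d m r)
    (fun p => Ww d m r (p.2 ++ p.1))
    (u := (d : ℤ) ^ (k' + b)) hne hq hR (cop_dvd D R d (k' + b) _ hdvd hDd hRd)
  rw [Nat.mul_div_cancel' hdvd] at key
  exact key

theorem card_Fam (k' b t : ℕ) (M1 Mb Mt : ℤ) : (Fam d m k' b t (M1, (Mb, Mt))).card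
    = (gr d m t Mt).card * ((gr d m b Mb).card * (gr d m k' M1).card) := by
  unfold Fam
  rw [Finset.card_image_of_injOn (joinW_inj k' b t M1 Mb Mt), Finset.card_product,
    Finset.card_product]

/-- sum over all triples -/
theorem gg_le_sum (k' b t D R : ℕ) :
    ∑ M ∈ Ms d m (k' + b + t), Gam (gr d m (k' + b + t) M) (Ww d m r) D R ≤
      ∑ Mt ∈ Ms d m t, ∑ Mb ∈ Ms d m b, ∑ M1 ∈ Ms d m k',
        Gam (Fam d m k' b t (M1, (Mb, Mt))) (Ww d m r) D R := by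
  classical
  have h1 : ∀ M ∈ Ms d m (k' + b + t), Gam (gr d m (k' + b + t) M) (Ww d m r) D R ≤
      ∑ j ∈ (Ms d m k' ×ˢ (Ms d m b ×ˢ Ms d m t)).filter (fun j => j.1 * j.2.1 * j.2.2 = M),
        Gam (Fam d m k' b t j) (Ww d m r) D R := by
    intro M _
    rw [gr_eq]
    exact Gam_biUnion' _ _ (fun j _ j' _ hj => Fam_disjoint hj) _ _ _
  refine (Finset.sum_le_sum h1).trans ?_
  rw [Finset.sum_fiberwise_of_maps_to]
  · rw [Finset.sum_product, Finset.sum_congr rfl (fun M1 _ => Finset.sum_product _ _ _)]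
    rw [Finset.sum_comm]
    rw [Finset.sum_congr rfl (fun Mb _ => Finset.sum_comm)]
    rw [Finset.sum_comm]
  · intro j hj
    rw [Finset.mem_product, Finset.mem_product] at hj
    obtain ⟨u, hu, hu'⟩ := mem_Ms.1 hj.1
    obtain ⟨v, hv, hv'⟩ := mem_Ms.1 hj.2.1
    obtain ⟨w, hw, hw'⟩ := mem_Ms.1 hj.2.2
    refine mem_Ms.2 ⟨(u ++ v) ++ w, ⟨?_, ?_⟩, ?_⟩
    · rw [List.length_append, List.length_append, hu.1, hv.1, hw.1]
    · intro i hi
      rw [List.mem_append, List.mem_append] at hi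
      rcases hi with (hi | hi) | hi
      · exact hu.2 i hi
      · exact hv.2 i hi
      · exact hw.2 i hi
    · rw [Mw_append, Mw_append, hu', hv', hw']

open scoped Classical in
/-- the sum of the sizes of the groups with multiplier outside `𝒯` -/
theorem sum_not_mem (b : ℕ) (𝒯 : Finset ℤ) :
    ∑ Mb ∈ Ms d m b, (if Mb ∈ 𝒯 then (0 : ℝ) else ((gr d m b Mb).card : ℝ))
      = (((LW d b).filter fun w => Mw m w ∉ 𝒯).card : ℝ) := by
  have h := sum_gr (d := d) (m := m) b (fun w => if Mw m w ∈ 𝒯 then (0 : ℝ) else 1)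
  rw [Finset.card_filter, Nat.cast_sum]
  have e : ∀ w ∈ LW d b, ((if Mw m w ∉ 𝒯 then 1 else 0 : ℕ) : ℝ)
      = (if Mw m w ∈ 𝒯 then (0 : ℝ) else 1) := by
    intro w _
    by_cases hw : Mw m w ∈ 𝒯
    · simp [hw]
    · simp [hw]
  rw [Finset.sum_congr rfl e, ← h]
  refine Finset.sum_congr rfl fun M _ => ?_
  have e2 : ∀ w ∈ gr d m b M, (if Mw m w ∈ 𝒯 then (0 : ℝ) else 1) = if M ∈ 𝒯 then (0 : ℝ) else 1 := by
    intro w hw
    rw [(mem_gr.1 hw).2]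
  rw [Finset.sum_congr rfl e2, Finset.sum_const, nsmul_eq_mul]
  by_cases hM : M ∈ 𝒯
  · simp [hM]
  · simp [hM]

theorem sum_card_mul (t : ℕ) (f : ℤ → ℝ) :
    ∑ Mt ∈ Ms d m t, ((gr d m t Mt).card : ℝ) * f Mt = ∑ w ∈ LW d t, f (Mw m w) := by
  rw [← sum_gr (d := d) (m := m) t (fun w => f (Mw m w))]
  refine Finset.sum_congr rfl fun M _ => ?_
  have e2 : ∀ w ∈ gr d m t M, f (Mw m w) = f M := by
    intro w hw
    rw [(mem_gr.1 hw).2]
  rw [Finset.sum_congr rfl e2, Finset.sum_const, nsmul_eq_mul]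

end Pool.Agent.H319R3.GC.SP

namespace Pool.Agent.H319R3.GC

open Finset Pool.Agent.H319R3.GC.SP

variable {d : ℕ} {m r : ℕ → ℤ}

open scoped Classical in
/-- prefix of length `k'`, block of length `b`, suffix of length `t`; `𝒯` = typical multipliers of the
block -/
theorem split (h : Adm d m r) {k' b t D R : ℕ} (𝒯 : Finset ℤ) {ε : ℝ} (hε : 0 ≤ ε)
    (hD : 0 < D) (hDd : Nat.Coprime D d) (hR : 1 ≤ R) (hRd : Nat.Coprime R d)
    (h0 : ∀ w ∈ LW d t, (Mw m w).natAbs ∣ D)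
    (h1 : ∀ w ∈ LW d t, ∀ M ∈ 𝒯, (Mw m w * M).natAbs ∣ D)
    (h2 : ∀ w ∈ LW d t, ∀ M ∈ 𝒯, gg d m r k' (D / (Mw m w * M).natAbs) R ≤ ε) :
    gg d m r (k' + b + t) D R ≤
      (R - 1) * ε * ((∑ w ∈ LW d t, gg d m r b (D / (Mw m w).natAbs) R) / (d : ℝ) ^ t)
      + (R - 1) * ((((LW d b).filter fun w => Mw m w ∉ 𝒯).card : ℝ) / (d : ℝ) ^ b) := by
  have hd0 : (0 : ℝ) < d := by
    have := h.two_le
    exact_mod_cast (by omega : 0 < d)
  have hR0 : (0 : ℝ) ≤ (R : ℝ) - 1 := by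
    have : (1 : ℝ) ≤ R := by exact_mod_cast hR
    linarith
  set B : ℝ := (((LW d b).filter fun w => Mw m w ∉ 𝒯).card : ℝ) with hB
  -- the inner sum over the prefix
  have hin : ∀ Mt ∈ Ms d m t, ∀ Mb ∈ Ms d m b,
      ∑ M1 ∈ Ms d m k', Gam (Fam d m k' b t (M1, (Mb, Mt))) (Ww d m r) D R ≤
        ((gr d m t Mt).card : ℝ) * ((R - 1) * (d : ℝ) ^ k' *
          (ε * Gam (gr d m b Mb) (Ww d m r) (D / Mt.natAbs) R
            + (if Mb ∈ 𝒯 then (0 : ℝ) else ((gr d m b Mb).card : ℝ)))) := by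
    intro Mt hMt Mb hMb
    obtain ⟨w, hw, hwM⟩ := mem_Ms.1 hMt
    have hwL : w ∈ LW d t := mem_LW.2 hw
    have hne : Mw m w ≠ 0 := Mw_ne_zero h hw.2
    rw [hwM] at hne
    have hpos : 0 < Mt.natAbs := Int.natAbs_pos.2 hne
    have hdvd : Mt.natAbs ∣ D := by
      have := h0 w hwL
      rwa [hwM] at this
    have hq : 0 < D / Mt.natAbs := Nat.div_pos (Nat.le_of_dvd hD hdvd) hpos
    have hGt : Gam (gr d m t Mt) (Ww d m r) D R ≤ (R - 1) * ((gr d m t Mt).card : ℝ) :=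
      Gam_le _ _ hD hR
    have hGb0 : 0 ≤ Gam (gr d m b Mb) (Ww d m r) (D / Mt.natAbs) R := Gam_nonneg _ _ _ _
    have hdk : (0 : ℝ) < (d : ℝ) ^ k' := pow_pos hd0 _
    by_cases hT : Mb ∈ 𝒯
    · rw [if_pos hT, add_zero]
      have hdd : (Mt * Mb).natAbs ∣ D := by
        have := h1 w hwL Mb hT
        rwa [hwM] at this
      have hdvd2 : Mb.natAbs ∣ D / Mt.natAbs := by
        rw [Int.natAbs_mul] at hdd
        exact Nat.dvd_div_of_mul_dvd hdd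
      have hdiv : D / Mt.natAbs / Mb.natAbs = D / (Mt * Mb).natAbs := by
        rw [Int.natAbs_mul, Nat.div_div_eq_div_mul]
      have hcop : Nat.Coprime (D / Mt.natAbs) d :=
        Nat.Coprime.coprime_dvd_left (Nat.div_dvd_of_dvd hdvd) hDd
      have hgg : gg d m r k' (D / (Mt * Mb).natAbs) R ≤ ε := by
        have := h2 w hwL Mb hT
        rwa [hwM] at this
      have hsum1 : ∑ M1 ∈ Ms d m k', Gam (gr d m k' M1) (Ww d m r) (D / Mt.natAbs / Mb.natAbs) R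
          ≤ ε * (d : ℝ) ^ k' := by
        rw [hdiv]
        unfold gg at hgg
        rwa [div_le_iff₀ hdk] at hgg
      have hstep : ∀ M1 ∈ Ms d m k', Gam (Fam d m k' b t (M1, (Mb, Mt))) (Ww d m r) D R ≤
          ((R - 1) * ((gr d m t Mt).card : ℝ)) *
            (Gam (gr d m b Mb) (Ww d m r) (D / Mt.natAbs) R *
              Gam (gr d m k' M1) (Ww d m r) (D / Mt.natAbs / Mb.natAbs) R) := by
        intro M1 _
        refine (three_le h hMt hD hDd hR hRd hdvd).trans ?_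
        have a1 := two_le (k' := k') (M1 := M1) h hMb hq hcop hR hRd hdvd2
        have a2 : 0 ≤ Gam ((gr d m b Mb) ×ˢ (gr d m k' M1)) (fun p => Ww d m r (p.2 ++ p.1))
            (D / Mt.natAbs) R := Gam_nonneg _ _ _ _
        exact mul_le_mul hGt a1 a2 (mul_nonneg hR0 (Nat.cast_nonneg _))
      refine (Finset.sum_le_sum hstep).trans ?_
      rw [← Finset.mul_sum, ← Finset.mul_sum]
      have hc0 : (0 : ℝ) ≤ ((gr d m t Mt).card : ℝ) := Nat.cast_nonneg _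
      calc ((R - 1) * ((gr d m t Mt).card : ℝ)) *
            (Gam (gr d m b Mb) (Ww d m r) (D / Mt.natAbs) R *
              ∑ M1 ∈ Ms d m k', Gam (gr d m k' M1) (Ww d m r) (D / Mt.natAbs / Mb.natAbs) R)
          ≤ ((R - 1) * ((gr d m t Mt).card : ℝ)) *
            (Gam (gr d m b Mb) (Ww d m r) (D / Mt.natAbs) R * (ε * (d : ℝ) ^ k')) := by
            refine mul_le_mul_of_nonneg_left ?_ (mul_nonneg hR0 hc0)
            exact mul_le_mul_of_nonneg_left hsum1 hGb0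
        _ = _ := by ring
    · rw [if_neg hT]
      have hstep : ∀ M1 ∈ Ms d m k', Gam (Fam d m k' b t (M1, (Mb, Mt))) (Ww d m r) D R ≤
          ((R - 1) * ((gr d m t Mt).card : ℝ) * ((gr d m b Mb).card : ℝ)) *
            ((gr d m k' M1).card : ℝ) := by
        intro M1 _
        refine (Gam_le _ _ hD hR).trans ?_
        rw [card_Fam]
        push_cast
        apply le_of_eq
        ring
      refine (Finset.sum_le_sum hstep).trans ?_
      rw [← Finset.mul_sum, sum_card_gr]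
      have hc0 : (0 : ℝ) ≤ ((gr d m t Mt).card : ℝ) := Nat.cast_nonneg _
      have hx : 0 ≤ ((gr d m t Mt).card : ℝ) * ((R - 1) * (d : ℝ) ^ k' *
          (ε * Gam (gr d m b Mb) (Ww d m r) (D / Mt.natAbs) R)) := by positivity
      calc ((R - 1) * ((gr d m t Mt).card : ℝ) * ((gr d m b Mb).card : ℝ)) * (d : ℝ) ^ k'
          ≤ ((R - 1) * ((gr d m t Mt).card : ℝ) * ((gr d m b Mb).card : ℝ)) * (d : ℝ) ^ k'
            + ((gr d m t Mt).card : ℝ) * ((R - 1) * (d : ℝ) ^ k' *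
          (ε * Gam (gr d m b Mb) (Ww d m r) (D / Mt.natAbs) R)) := by linarith
        _ = _ := by ring
  have hmid : ∀ Mt ∈ Ms d m t,
      ∑ Mb ∈ Ms d m b, ∑ M1 ∈ Ms d m k', Gam (Fam d m k' b t (M1, (Mb, Mt))) (Ww d m r) D R ≤
        ((gr d m t Mt).card : ℝ) * ((R - 1) * (d : ℝ) ^ k' *
          (ε * ((d : ℝ) ^ b * gg d m r b (D / Mt.natAbs) R) + B)) := by
    intro Mt hMt
    refine (Finset.sum_le_sum (hin Mt hMt)).trans ?_
    rw [← Finset.mul_sum, ← Finset.mul_sum, Finset.sum_add_distrib, ← Finset.mul_sum, sum_not_mem]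
    apply le_of_eq
    have : ∑ Mb ∈ Ms d m b, Gam (gr d m b Mb) (Ww d m r) (D / Mt.natAbs) R
        = (d : ℝ) ^ b * gg d m r b (D / Mt.natAbs) R := by
      unfold gg
      rw [mul_div_cancel₀]
      exact (pow_pos hd0 _).ne'
    rw [this]
  have hall := (gg_le_sum (d := d) (m := m) (r := r) k' b t D R).trans (Finset.sum_le_sum hmid)
  rw [sum_card_mul t (fun Mt => (R - 1) * (d : ℝ) ^ k' *
          (ε * ((d : ℝ) ^ b * gg d m r b (D / Mt.natAbs) R) + B))] at hall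
  rw [← Finset.mul_sum, Finset.sum_add_distrib, ← Finset.mul_sum, ← Finset.mul_sum, Finset.sum_const,
    card_LW, nsmul_eq_mul] at hall
  have hp : (0 : ℝ) < (d : ℝ) ^ (k' + b + t) := pow_pos hd0 _
  have e : gg d m r (k' + b + t) D R
      = (∑ M ∈ Ms d m (k' + b + t), Gam (gr d m (k' + b + t) M) (Ww d m r) D R)
        / (d : ℝ) ^ (k' + b + t) := rfl
  rw [e, div_le_iff₀ hp]
  refine hall.trans (le_of_eq ?_)
  have hb : (d : ℝ) ^ b ≠ 0 := (pow_pos hd0 _).ne'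
  have ht : (d : ℝ) ^ t ≠ 0 := (pow_pos hd0 _).ne'
  rw [pow_add, pow_add]
  push_cast
  field_simp

end Pool.Agent.H319R3.GC
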