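import Pool.Agent.H33.G.R_seed8.H319R3.GC.S1

/-! Task I1 (helper341): iteration over the scales. -/

set_option autoImplicit false

namespace Pool.Agent.H319R3.GC

open Finset

variable {d : ℕ} {m r : ℕ → ℤ}

theorem I1_window_finite (S : Set ℤ) (b : ℝ) : {x : ℤ | x ∈ S ∧ |(x : ℝ)| < b}.Finite := by
  refine (Set.finite_Icc (-⌈b⌉) ⌈b⌉).subset ?_
  intro x hx
  have h := abs_lt.1 hx.2
  have hc := Int.le_ceil b
  rw [Set.mem_Icc]
  constructor
  · have : (-(⌈b⌉ : ℤ) : ℝ) ≤ x := by linarith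
    exact_mod_cast this
  · have : (x : ℝ) ≤ (⌈b⌉ : ℤ) := by linarith
    exact_mod_cast this

theorem I1_PB_mono {S : Set ℤ} {a : ℝ} (ha : 0 < a) {Q : ℕ} {ρ ρ' : ℝ} (h : PB S a Q ρ)
    (hρ : ρ ≤ ρ') : PB S a Q ρ' := by
  intro c
  refine (h c).trans ?_
  gcongr

/-- the windows below `y` are empty -/
theorem I1_empty {S : Set ℤ} {y : ℝ} (hS : ∀ x ∈ S, y < |(x : ℝ)|) {a : ℝ} (ha : 0 < a)
    (hay : 2 * a ≤ y) (Q : ℕ) {ρ : ℝ} (hρ : 0 ≤ ρ) : PB S a Q ρ := by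
  intro c
  have h0 : {x : ℤ | x ∈ S ∧ a ≤ |(x : ℝ)| ∧ |(x : ℝ)| < 2 * a ∧ (Q : ℤ) ∣ x - c} = ∅ := by
    ext x
    simp only [Set.mem_ofPred_eq, Set.mem_empty_iff_false, iff_false]
    rintro ⟨h1, -, h3, -⟩
    have := hS x h1
    linarith
  rw [wc, h0, Set.ncard_empty, Nat.cast_zero]
  positivity

/-- the iteration -/
theorem I1_iter {S : Set ℤ} {y : ℝ} {B P : ℕ} {lo hi ν L₀ C : ℝ} (hB : 1 ≤ B) (hlo : 0 < lo)
    (hlh : lo ≤ hi) (hhi : hi < 1) (hC : 0 < C)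
    (hst : ∀ a ρ : ℝ, 0 < a → L₀ ≤ Real.log a → 0 ≤ ρ →
      (∀ a' : ℝ, 0 < a' → lo * Real.log a ≤ Real.log a' → Real.log a' ≤ hi * Real.log a →
        PB S a' (P ^ ⌊ν * Real.log a'⌋₊) ρ) →
      PB S a (P ^ ⌊ν * Real.log a⌋₊) (ρ + C / (Real.log a) ^ B))
    (hy : 2 ≤ y) (hS : ∀ x ∈ S, y < |(x : ℝ)|) (hL1 : L₀ ≤ Real.log (y / 2))
    (hl0 : 0 < Real.log (y / 2)) (a : ℝ) (ha : 0 < a) (hla : lo * Real.log (y / 2) ≤ Real.log a) :
    PB S a (P ^ ⌊ν * Real.log a⌋₊)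
      (C / ((1 / hi) ^ B - 1) * (1 / (lo * Real.log (y / 2))) ^ B) := by
  set l : ℝ := Real.log (y / 2) with hl
  have hhi0 : 0 < hi := hlo.trans_le hlh
  have hq1 : 1 < (1 / hi) ^ B := by
    apply one_lt_pow₀ _ (by omega)
    rw [one_lt_div hhi0]; exact hhi
  set K : ℝ := C / ((1 / hi) ^ B - 1) with hK
  have hK0 : 0 < K := div_pos hC (by linarith)
  have hKe : K * ((1 / hi) ^ B - 1) = C := by
    rw [hK]; exact div_mul_cancel₀ _ (by linarith)
  set g : ℝ → ℝ := fun s => K * ((1 / (lo * l)) ^ B - (1 / s) ^ B) with hg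
  have hll : 0 < lo * l := mul_pos hlo hl0
  have hgmono : ∀ s s' : ℝ, 0 < s → s ≤ s' → g s ≤ g s' := by
    intro s s' hs hss
    simp only [hg]
    have hs' : 0 < s' := by linarith
    have h1 : (1 / s') ^ B ≤ (1 / s) ^ B := by gcongr
    exact mul_le_mul_of_nonneg_left (by linarith) hK0.le
  have hg0 : ∀ s : ℝ, lo * l ≤ s → 0 ≤ g s := by
    intro s hs
    have h1 := hgmono (lo * l) s hll hs
    have h2 : g (lo * l) = 0 := by simp only [hg]; rw [sub_self, mul_zero]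
    linarith
  have key : ∀ n : ℕ, ∀ a : ℝ, 0 < a → lo * l ≤ Real.log a → hi ^ n * Real.log a ≤ l →
      PB S a (P ^ ⌊ν * Real.log a⌋₊) (g (Real.log a)) := by
    intro n
    induction n with
    | zero =>
      intro a ha h1 h2
      rw [pow_zero, one_mul] at h2
      apply I1_empty hS ha _ _ (hg0 _ h1)
      have h3 : a ≤ y / 2 := (Real.log_le_log_iff ha (by linarith)).1 h2
      linarith
    | succ n ih =>
      intro a ha h1 h2
      by_cases hal : Real.log a ≤ l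
      · apply I1_empty hS ha _ _ (hg0 _ h1)
        have h3 : a ≤ y / 2 := (Real.log_le_log_iff ha (by linarith)).1 hal
        linarith
      · push Not at hal
        have hla0 : 0 < Real.log a := by linarith
        have h3 : lo * l ≤ hi * Real.log a := by
          calc lo * l ≤ hi * l := by gcongr
            _ ≤ hi * Real.log a := by gcongr
        have h4 := hst a (g (hi * Real.log a)) ha (by linarith) (hg0 _ h3) (by
          intro a' ha' h5 h6
          have h7 : lo * l ≤ Real.log a' := by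
            refine le_trans ?_ h5
            gcongr
          have h8 : hi ^ n * Real.log a' ≤ l := by
            calc hi ^ n * Real.log a' ≤ hi ^ n * (hi * Real.log a) := by gcongr
              _ = hi ^ (n + 1) * Real.log a := by ring
              _ ≤ l := h2
          exact I1_PB_mono ha' (ih a' ha' h7 h8) (hgmono _ _ (by linarith) h6))
        apply I1_PB_mono ha h4
        simp only [hg]
        have h9 : (1 / (hi * Real.log a)) ^ B = (1 / hi) ^ B * (1 / Real.log a) ^ B := by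
          rw [← mul_pow]
          congr 1
          field_simp
        have h10 : C / Real.log a ^ B = C * (1 / Real.log a) ^ B := by
          rw [one_div, inv_pow]; ring
        rw [h9, h10, ← hKe]
        apply le_of_eq
        ring
  obtain ⟨n, hn⟩ : ∃ n : ℕ, hi ^ n * Real.log a ≤ l := by
    have h1 : 0 < l / (|Real.log a| + 1) := by positivity
    obtain ⟨n, hn⟩ := exists_pow_lt_of_lt_one h1 hhi
    refine ⟨n, ?_⟩
    rw [lt_div_iff₀ (by positivity)] at hn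
    have h2 : hi ^ n * Real.log a ≤ hi ^ n * (|Real.log a| + 1) := by
      gcongr
      have := le_abs_self (Real.log a)
      linarith
    linarith
  refine I1_PB_mono ha (key n a ha hla hn) ?_
  simp only [hg]
  gcongr
  have : 0 ≤ (1 / Real.log a) ^ B := by
    have : 0 < Real.log a := by linarith
    positivity
  linarith

/-- summation over the windows -/
theorem I1_sum {S : Set ℤ} {y : ℝ} (hS : ∀ x ∈ S, y < |(x : ℝ)|) {ρ : ℝ} (hρ : 0 ≤ ρ)
    (h : ∀ a : ℝ, y / 2 ≤ a → 0 < a → PB S a 1 ρ) (n : ℕ) :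
    ∀ X : ℝ, 0 < X → X ≤ y * 2 ^ n →
      ({x : ℤ | x ∈ S ∧ |(x : ℝ)| < X}.ncard : ℝ) ≤ 2 * ρ * X := by
  have hemp : ∀ X : ℝ, 0 < X → X ≤ y →
      ({x : ℤ | x ∈ S ∧ |(x : ℝ)| < X}.ncard : ℝ) ≤ 2 * ρ * X := by
    intro X hX hXy
    have h0 : {x : ℤ | x ∈ S ∧ |(x : ℝ)| < X} = ∅ := by
      ext x
      simp only [Set.mem_ofPred_eq, Set.mem_empty_iff_false, iff_false]
      rintro ⟨h1, h3⟩
      have := hS x h1
      linarith
    rw [h0, Set.ncard_empty, Nat.cast_zero]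
    positivity
  induction n with
  | zero => intro X hX hXy; exact hemp X hX (by simpa using hXy)
  | succ n ih =>
    intro X hX hXy
    by_cases hXy' : X ≤ y
    · exact hemp X hX hXy'
    · push Not at hXy'
      have ha : 0 < X / 2 := by linarith
      have h1 := ih (X / 2) ha (by rw [pow_succ] at hXy; linarith)
      have h2 := h (X / 2) (by linarith) ha 0
      have hsub : {x : ℤ | x ∈ S ∧ |(x : ℝ)| < X} ⊆ {x : ℤ | x ∈ S ∧ |(x : ℝ)| < X / 2} ∪
          {x : ℤ | x ∈ S ∧ X / 2 ≤ |(x : ℝ)| ∧ |(x : ℝ)| < 2 * (X / 2) ∧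
            ((1 : ℕ) : ℤ) ∣ x - 0} := by
        rintro x ⟨hx1, hx2⟩
        by_cases hx3 : |(x : ℝ)| < X / 2
        · exact Or.inl ⟨hx1, hx3⟩
        · push Not at hx3
          refine Or.inr ⟨hx1, hx3, by linarith, ?_⟩
          simp
      have hfin : ({x : ℤ | x ∈ S ∧ |(x : ℝ)| < X / 2} ∪
          {x : ℤ | x ∈ S ∧ X / 2 ≤ |(x : ℝ)| ∧ |(x : ℝ)| < 2 * (X / 2) ∧
            ((1 : ℕ) : ℤ) ∣ x - 0}).Finite := by
        apply (I1_window_finite S _).union
        apply (I1_window_finite S (2 * (X / 2))).subset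
        rintro x ⟨h1, -, h3, -⟩
        exact ⟨h1, h3⟩
      have h3 := (Set.ncard_le_ncard hsub hfin).trans (Set.ncard_union_le _ _)
      have h4 : ({x : ℤ | x ∈ S ∧ |(x : ℝ)| < X}.ncard : ℝ) ≤
          ({x : ℤ | x ∈ S ∧ |(x : ℝ)| < X / 2}.ncard : ℝ) +
          ({x : ℤ | x ∈ S ∧ X / 2 ≤ |(x : ℝ)| ∧ |(x : ℝ)| < 2 * (X / 2) ∧
            ((1 : ℕ) : ℤ) ∣ x - 0}.ncard : ℝ) := by exact_mod_cast h3
      have h5 : wc S (X / 2) 1 0 = ({x : ℤ | x ∈ S ∧ X / 2 ≤ |(x : ℝ)| ∧ |(x : ℝ)| < 2 * (X / 2) ∧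
            ((1 : ℕ) : ℤ) ∣ x - 0}.ncard : ℝ) := rfl
      rw [h5] at h2
      simp only [Nat.cast_one, div_one] at h2
      push_cast at h4
      linarith

/-- the main theorem from the one stage inequality -/
theorem I1_main (B : ℕ) (hP : 2 ≤ PP d m)
    (hstage : ∃ lo hi ν L₀ C : ℝ, 0 < lo ∧ lo ≤ hi ∧ hi < 1 ∧ 0 < ν ∧
      1 ≤ L₀ ∧ 0 < C ∧ ∀ S : Set ℤ, (∀ x ∈ S, Tm d m r x ∈ S) → ∀ a ρ : ℝ, 0 < a →
      L₀ ≤ Real.log a → 0 ≤ ρ →
      (∀ a' : ℝ, 0 < a' → lo * Real.log a ≤ Real.log a' → Real.log a' ≤ hi * Real.log a →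
        PB S a' (PP d m ^ ⌊ν * Real.log a'⌋₊) ρ) →
      PB S a (PP d m ^ ⌊ν * Real.log a⌋₊) (ρ + C / (Real.log a) ^ (B + 1))) :
    ∃ C : ℝ, 0 < C ∧ ∀ X y : ℝ, 1 ≤ X → 2 ≤ y →
    ({x : ℤ | |(x : ℝ)| ≤ X ∧ ∀ k : ℕ, y < |(((Tm d m r)^[k] x : ℤ) : ℝ)|}.ncard : ℝ)
      ≤ C * X / (Real.log y) ^ B := by
  obtain ⟨lo, hi, ν, L₀, C, hlo, hlh, hhi, hν, hL₀, hC, hst⟩ := hstage
  have hhi0 : 0 < hi := hlo.trans_le hlh
  have hq1 : 1 < (1 / hi) ^ (B + 1) := by
    apply one_lt_pow₀ _ (by omega)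
    rw [one_lt_div hhi0]; exact hhi
  set K : ℝ := C / ((1 / hi) ^ (B + 1) - 1) with hK
  have hK0 : 0 < K := div_pos hC (by linarith)
  set Y₀ : ℝ := max (2 * Real.exp L₀) 4 with hY₀
  have hY4 : 4 ≤ Y₀ := le_max_right _ _
  have hlY : 0 < Real.log Y₀ := Real.log_pos (by linarith)
  refine ⟨3 * (Real.log Y₀) ^ B + 4 * (K * (2 / lo) ^ (B + 1)), by positivity, ?_⟩
  intro X y hX hy
  have hly : 0 < Real.log y := Real.log_pos (by linarith)
  set S : Set ℤ := {x : ℤ | ∀ k : ℕ, y < |(((Tm d m r)^[k] x : ℤ) : ℝ)|} with hSdef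
  have hS : ∀ x ∈ S, y < |(x : ℝ)| := fun x hx => by simpa using hx 0
  have hST : ∀ x ∈ S, Tm d m r x ∈ S := by
    intro x hx k
    have := hx (k + 1)
    rwa [Function.iterate_succ_apply] at this
  have hfin1 : {x : ℤ | |(x : ℝ)| ≤ X ∧ ∀ k : ℕ, y < |(((Tm d m r)^[k] x : ℤ) : ℝ)|} ⊆
      {x : ℤ | x ∈ S ∧ |(x : ℝ)| < 2 * X} := by
    rintro x ⟨h1, h2⟩
    exact ⟨h2, by linarith⟩
  by_cases hyY : y < Y₀
  · -- small `y`
    have h1 : {x : ℤ | |(x : ℝ)| ≤ X ∧ ∀ k : ℕ, y < |(((Tm d m r)^[k] x : ℤ) : ℝ)|} ⊆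
        ((Finset.Icc (-⌊X⌋) ⌊X⌋ : Finset ℤ) : Set ℤ) := by
      rintro x ⟨h1, -⟩
      rw [Finset.coe_Icc, Set.mem_Icc]
      have h2 := abs_le.1 h1
      constructor
      · have : -x ≤ ⌊X⌋ := Int.le_floor.2 (by push_cast; linarith)
        linarith
      · exact Int.le_floor.2 h2.2
    have h2 := Set.ncard_le_ncard h1 (Finset.finite_toSet _)
    rw [Set.ncard_coe_finset, Int.card_Icc] at h2
    have h3 : (((⌊X⌋ + 1 - -⌊X⌋).toNat : ℕ) : ℝ) ≤ 3 * X := by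
      have hf0 : 0 ≤ ⌊X⌋ := Int.floor_nonneg.2 (by linarith)
      have h4 : (((⌊X⌋ + 1 - -⌊X⌋).toNat : ℕ) : ℤ) = 2 * ⌊X⌋ + 1 := by omega
      have h5 : (((⌊X⌋ + 1 - -⌊X⌋).toNat : ℕ) : ℝ) = 2 * (⌊X⌋ : ℝ) + 1 := by exact_mod_cast h4
      rw [h5]
      have := Int.floor_le X
      linarith
    have h4 : ({x : ℤ | |(x : ℝ)| ≤ X ∧ ∀ k : ℕ, y < |(((Tm d m r)^[k] x : ℤ) : ℝ)|}.ncard : ℝ) ≤
        3 * X := le_trans (by exact_mod_cast h2) h3
    refine h4.trans ?_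
    rw [le_div_iff₀ (by positivity)]
    have h5 : (Real.log y) ^ B ≤ (Real.log Y₀) ^ B := by
      have : Real.log y ≤ Real.log Y₀ := Real.log_le_log (by linarith) hyY.le
      gcongr
    have h6 : 0 ≤ 4 * (K * (2 / lo) ^ (B + 1)) * X := by positivity
    have h7 : 3 * X * (Real.log y) ^ B ≤ 3 * X * (Real.log Y₀) ^ B := by gcongr
    nlinarith
  · -- large `y`
    push Not at hyY
    have hy4 : 4 ≤ y := hY4.trans hyY
    have hyL : 2 * Real.exp L₀ ≤ y := (le_max_left _ _).trans hyY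
    have hL1 : L₀ ≤ Real.log (y / 2) := by
      rw [Real.le_log_iff_exp_le (by linarith)]
      linarith
    have hl0 : 0 < Real.log (y / 2) := by linarith
    have hlog : Real.log y / 2 ≤ Real.log (y / 2) := by
      rw [Real.log_div (by linarith) (by norm_num)]
      have h2 : Real.log 4 ≤ Real.log y := Real.log_le_log (by norm_num) hy4
      have h3 : Real.log 4 = 2 * Real.log 2 := by
        rw [show (4 : ℝ) = 2 ^ 2 by norm_num, Real.log_pow]; norm_num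
      linarith
    have hit := I1_iter (S := S) (y := y) (B := B + 1) (P := PP d m) (lo := lo) (hi := hi) (ν := ν)
      (L₀ := L₀) (C := C) (by omega) hlo hlh hhi hC (hst S hST) hy hS hL1 hl0
    set ρ : ℝ := K * (1 / (lo * Real.log (y / 2))) ^ (B + 1) with hρ
    have hρ0 : 0 ≤ ρ := by positivity
    have hPB1 : ∀ a : ℝ, y / 2 ≤ a → 0 < a → PB S a 1 ρ := by
      intro a ha1 ha
      refine PB.coarse ha (pow_pos (by omega) _) (one_dvd _) (hit a ha ?_)
      have h1 : Real.log (y / 2) ≤ Real.log a := Real.log_le_log (by linarith) ha1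
      nlinarith
    obtain ⟨n, hn⟩ := pow_unbounded_of_one_lt (2 * X) (show (1 : ℝ) < 2 by norm_num)
    have h1 := I1_sum hS hρ0 hPB1 n (2 * X) (by linarith) (by
      have : (2 : ℝ) ^ n ≤ y * 2 ^ n := le_mul_of_one_le_left (by positivity) (by linarith)
      linarith)
    have h2 := Set.ncard_le_ncard hfin1 (I1_window_finite S _)
    have h3 : ({x : ℤ | |(x : ℝ)| ≤ X ∧ ∀ k : ℕ, y < |(((Tm d m r)^[k] x : ℤ) : ℝ)|}.ncard : ℝ) ≤
        ({x : ℤ | x ∈ S ∧ |(x : ℝ)| < 2 * X}.ncard : ℝ) := by exact_mod_cast h2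
    refine (h3.trans h1).trans ?_
    have hρ2 : ρ ≤ K * (2 / lo) ^ (B + 1) * (1 / Real.log y) ^ B := by
      have h4 : 1 / (lo * Real.log (y / 2)) ≤ 2 / lo * (1 / Real.log y) := by
        rw [div_mul_div_comm, mul_one, div_le_div_iff₀ (by positivity) (by positivity)]
        nlinarith
      have h5 : (1 / (lo * Real.log (y / 2))) ^ (B + 1) ≤ (2 / lo * (1 / Real.log y)) ^ (B + 1) := by
        gcongr
      have hly1 : 1 / Real.log y ≤ 1 := by
        rw [div_le_one hly]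
        have h6 : Real.exp 1 ≤ y := by
          have := Real.exp_one_lt_d9
          linarith
        rwa [Real.le_log_iff_exp_le (by linarith)]
      have h6 : (1 / Real.log y) ^ (B + 1) ≤ (1 / Real.log y) ^ B :=
        pow_le_pow_of_le_one (by positivity) hly1 (by omega)
      rw [mul_pow] at h5
      calc ρ = K * (1 / (lo * Real.log (y / 2))) ^ (B + 1) := hρ
        _ ≤ K * ((2 / lo) ^ (B + 1) * (1 / Real.log y) ^ (B + 1)) := by gcongr
        _ ≤ K * ((2 / lo) ^ (B + 1) * (1 / Real.log y) ^ B) := by gcongr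
        _ = _ := by ring
    have h5 : (1 / Real.log y) ^ B = 1 / (Real.log y) ^ B := by rw [one_div_pow]
    rw [h5] at hρ2
    calc 2 * ρ * (2 * X) = 4 * ρ * X := by ring
      _ ≤ 4 * (K * (2 / lo) ^ (B + 1) * (1 / (Real.log y) ^ B)) * X := by gcongr
      _ = 4 * (K * (2 / lo) ^ (B + 1)) * X / (Real.log y) ^ B := by ring
      _ ≤ _ := by
        gcongr
        have : 0 ≤ 3 * (Real.log Y₀) ^ B := by positivity
        linarith

end Pool.Agent.H319R3.GC
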