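import Pool.Agent.H33.G.R_seed8.H319R3.GC.S3
import Pool.Agent.H33.G.R_seed8.H319R3.GC.I1

/-! The main theorem for generalised Collatz maps of coprime type with `∏ |m_i| < d ^ d`. -/

set_option autoImplicit false

namespace Pool.Agent.H319R3.GC

open Finset

variable {d : ℕ} {m r : ℕ → ℤ}

theorem main (h : Adm d m r) (B : ℕ) : ∃ C : ℝ, 0 < C ∧ ∀ X y : ℝ, 1 ≤ X → 2 ≤ y →
    ({x : ℤ | |(x : ℝ)| ≤ X ∧ ∀ k : ℕ, y < |(((Tm d m r)^[k] x : ℤ) : ℝ)|}.ncard : ℝ)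
      ≤ C * X / (Real.log y) ^ B :=
  I1_main B h.big (stage h (B + 1))

theorem ncard_trivial (X : ℝ) (hX : 1 ≤ X) (s : Set ℤ) (hs : s ⊆ {x : ℤ | |(x : ℝ)| ≤ X}) :
    (s.ncard : ℝ) ≤ 3 * X := by
  have hsub : s ⊆ ((Finset.Icc (-⌊X⌋) ⌊X⌋ : Finset ℤ) : Set ℤ) := by
    intro x hx
    have h0 : |(x : ℝ)| ≤ X := hs hx
    have h1 := abs_le.1 h0
    simp only [Finset.coe_Icc, Set.mem_Icc]
    constructor
    · have : ((-x : ℤ) : ℝ) ≤ X := by push_cast; linarith [h1.1]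
      have := Int.le_floor.2 this
      omega
    · exact Int.le_floor.2 h1.2
  have h1 := Set.ncard_le_ncard hsub (Finset.finite_toSet _)
  rw [Set.ncard_coe_finset, Int.card_Icc] at h1
  have h0 : 0 ≤ ⌊X⌋ := Int.floor_nonneg.2 (by linarith)
  have h2 : ((⌊X⌋ + 1 - -⌊X⌋).toNat : ℝ) = 2 * (⌊X⌋ : ℝ) + 1 := by
    have : ((⌊X⌋ + 1 - -⌊X⌋).toNat : ℤ) = 2 * ⌊X⌋ + 1 := by
      rw [Int.toNat_of_nonneg (by omega)]; ring
    exact_mod_cast this
  have h3 : (s.ncard : ℝ) ≤ ((⌊X⌋ + 1 - -⌊X⌋).toNat : ℝ) := by exact_mod_cast h1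
  have h4 := Int.floor_le X
  rw [h2] at h3
  linarith

/-- the case in which all multipliers are `±1` -/
theorem main_one (hd : 2 ≤ d) (hadm : ∀ i < d, (d : ℤ) ∣ m i * i - r i)
    (hm : ∀ i < d, (m i).natAbs = 1) (B : ℕ) :
    ∃ C : ℝ, 0 < C ∧ ∀ X y : ℝ, 1 ≤ X → 2 ≤ y →
    ({x : ℤ | |(x : ℝ)| ≤ X ∧ ∀ k : ℕ, y < |(((Tm d m r)^[k] x : ℤ) : ℝ)|}.ncard : ℝ)
      ≤ C * X / (Real.log y) ^ B := by
  obtain ⟨R, hR⟩ : ∃ R : ℝ, ∀ i < d, |(r i : ℝ)| ≤ R := by
    refine ⟨∑ i ∈ range d, |(r i : ℝ)|, fun i hi => ?_⟩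
    exact Finset.single_le_sum (f := fun i => |(r i : ℝ)|) (fun j _ => abs_nonneg _)
      (mem_range.2 hi)
  have hR0 : 0 ≤ R := (abs_nonneg _).trans (hR 0 (by omega))
  have hdR : (2 : ℝ) ≤ d := by exact_mod_cast hd
  have hd0 : (0 : ℤ) < d := by omega
  have step : ∀ x : ℤ, |((Tm d m r x : ℤ) : ℝ)| ≤ (|(x : ℝ)| + R) / 2 := by
    intro x
    have h0 : 0 ≤ x % (d : ℤ) := Int.emod_nonneg _ hd0.ne'
    have h1 : x % (d : ℤ) < d := Int.emod_lt_of_pos _ hd0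
    have hi : (x % (d : ℤ)).toNat < d := by omega
    have hdv : (d : ℤ) ∣ m (x % d).toNat * x - r (x % d).toNat := by
      have h2 := hadm _ hi
      have h3 : (((x % (d : ℤ)).toNat : ℕ) : ℤ) = x % d := Int.toNat_of_nonneg h0
      rw [h3] at h2
      have h4 : (d : ℤ) ∣ m (x % d).toNat * (x - x % d) :=
        Dvd.dvd.mul_left (Int.dvd_self_sub_emod) _
      have h5 : m (x % d).toNat * x - r (x % d).toNat =
        m (x % d).toNat * (x - x % d) + (m (x % d).toNat * (x % d) - r (x % d).toNat) := by ring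
      rw [h5]
      exact dvd_add h4 h2
    have h6 : (d : ℝ) * ((Tm d m r x : ℤ) : ℝ) =
        (m (x % d).toNat : ℝ) * x - (r (x % d).toNat : ℝ) := by
      have : (d : ℤ) * Tm d m r x = m (x % d).toNat * x - r (x % d).toNat :=
        Int.mul_ediv_cancel' hdv
      exact_mod_cast this
    have h7 : |(m (x % d).toNat : ℝ)| = 1 := by
      have := hm _ hi
      have h8 : |m (x % (d : ℤ)).toNat| = 1 := by
        rw [Int.abs_eq_natAbs, this]; rfl
      exact_mod_cast h8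
    have h9 : (d : ℝ) * |((Tm d m r x : ℤ) : ℝ)| ≤ |(x : ℝ)| + R := by
      have h10 : (d : ℝ) * |((Tm d m r x : ℤ) : ℝ)| = |(d : ℝ) * ((Tm d m r x : ℤ) : ℝ)| := by
        rw [abs_mul, abs_of_pos (show (0 : ℝ) < d by linarith)]
      rw [h10, h6]
      calc |(m (x % d).toNat : ℝ) * x - (r (x % d).toNat : ℝ)|
          ≤ |(m (x % d).toNat : ℝ) * x| + |(r (x % d).toNat : ℝ)| := abs_sub _ _
        _ ≤ |(x : ℝ)| + R := by
            rw [abs_mul, h7, one_mul]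
            have := hR _ hi
            linarith
    rw [le_div_iff₀ (by norm_num)]
    nlinarith [abs_nonneg ((Tm d m r x : ℤ) : ℝ)]
  have iter : ∀ (k : ℕ) (x : ℤ), |(((Tm d m r)^[k] x : ℤ) : ℝ)| ≤ |(x : ℝ)| / 2 ^ k + R := by
    intro k
    induction k with
    | zero => intro x; simpa using hR0
    | succ k ih =>
      intro x
      rw [Function.iterate_succ_apply']
      refine (step _).trans ?_
      have h1 := ih x
      have h2 : |(x : ℝ)| / 2 ^ (k + 1) = |(x : ℝ)| / 2 ^ k / 2 := by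
        rw [pow_succ]; field_simp
      rw [h2]
      linarith
  refine ⟨3 * (Real.log (R + 3)) ^ B, by
    have : 0 < Real.log (R + 3) := Real.log_pos (by linarith)
    positivity, ?_⟩
  intro X y hX hy
  have hly : 0 < Real.log y := Real.log_pos (by linarith)
  have hlR : 0 < Real.log (R + 3) := Real.log_pos (by linarith)
  rcases lt_or_ge y (R + 3) with h | h
  · have h1 := ncard_trivial X hX
      {x : ℤ | |(x : ℝ)| ≤ X ∧ ∀ k : ℕ, y < |(((Tm d m r)^[k] x : ℤ) : ℝ)|} (fun x hx => hx.1)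
    refine h1.trans ?_
    rw [le_div_iff₀ (by positivity)]
    have h2 : Real.log y ^ B ≤ Real.log (R + 3) ^ B := by
      gcongr
    nlinarith
  · have h1 : {x : ℤ | |(x : ℝ)| ≤ X ∧ ∀ k : ℕ, y < |(((Tm d m r)^[k] x : ℤ) : ℝ)|} = ∅ := by
      ext x
      simp only [Set.mem_setOf_eq, Set.mem_empty_iff_false, iff_false, not_and, not_forall, not_lt]
      intro _
      obtain ⟨k, hk⟩ := exists_nat_gt |(x : ℝ)|
      refine ⟨k, (iter k x).trans ?_⟩
      have h2 : (k : ℝ) < 2 ^ k := by exact_mod_cast Nat.lt_two_pow_self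
      have h3 : |(x : ℝ)| / 2 ^ k ≤ 1 := by
        rw [div_le_one (by positivity)]
        linarith
      linarith
    rw [h1, Set.ncard_empty]
    simp only [Nat.cast_zero]
    positivity

/-- both cases -/
theorem main_all (hd : 2 ≤ d) (hcop : ∀ i < d, IsCoprime (m i) (d : ℤ))
    (hadm : ∀ i < d, (d : ℤ) ∣ m i * i - r i) (hc : ∏ i ∈ range d, (m i).natAbs < d ^ d) (B : ℕ) :
    ∃ C : ℝ, 0 < C ∧ ∀ X y : ℝ, 1 ≤ X → 2 ≤ y →
    ({x : ℤ | |(x : ℝ)| ≤ X ∧ ∀ k : ℕ, y < |(((Tm d m r)^[k] x : ℤ) : ℝ)|}.ncard : ℝ)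
      ≤ C * X / (Real.log y) ^ B := by
  rcases lt_or_ge (PP d m) 2 with h | h
  · refine main_one hd hadm ?_ B
    have h0 : ∀ i ∈ range d, 1 ≤ (m i).natAbs := by
      intro i hi
      rw [Nat.one_le_iff_ne_zero, ne_eq, Int.natAbs_eq_zero]
      intro h0
      have := hcop i (mem_range.1 hi)
      rw [h0, isCoprime_zero_left, Int.isUnit_iff] at this
      omega
    have h1 : ∏ i ∈ range d, (m i).natAbs = 1 := by
      have h2 : 1 ≤ ∏ i ∈ range d, (m i).natAbs := Finset.one_le_prod' h0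
      unfold PP at h
      omega
    intro i hi
    have := (Finset.prod_eq_one_iff_of_one_le' h0).1 h1 i (mem_range.2 hi)
    exact this
  · exact main ⟨hd, hcop, hadm, hc, h⟩ B

end Pool.Agent.H319R3.GC
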