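import Pool.Agent.H33.G.R_seed8.H319R3.GC.W1
import Pool.Agent.H33.G.R_seed8.H319R3.GC.W2
import Pool.Agent.H33.G.R_seed8.H319R3.GC.F2
import Pool.Agent.H33.G.R_seed8.H319R3.GC.S1

/-! One group of words: `group_count` (task S2). -/

set_option autoImplicit false

namespace Pool.Agent.H319R3.GC
open Finset

variable {d : ℕ} {m r : ℕ → ℤ}

/-- a function with period `D` only depends on the class mod `D` -/
theorem s2_per_congr {D : ℕ} {F : ℤ → ℝ} (hF : ∀ x, F (x + D) = F x) {x y : ℤ}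
    (h : (D : ℤ) ∣ x - y) : F x = F y := by
  obtain ⟨n, hn⟩ := h
  have hp : Function.Periodic F (D : ℤ) := hF
  have := hp.int_mul n y
  have hx : x = y + n * (D : ℤ) := by linarith [mul_comm (D : ℤ) n]
  rw [hx]
  exact this

/-- sum of a periodic function over a finite set with few elements in each class -/
theorem s2_sum_classes (Z : Finset ℤ) {D : ℕ} (hD : 0 < D) {F : ℤ → ℝ} (hF : ∀ x, F (x + D) = F x)
    (hF0 : ∀ x, 0 ≤ F x) {K : ℝ}
    (hK : ∀ e : ℤ, (((Z.filter fun z => (D : ℤ) ∣ z - e).card : ℕ) : ℝ) ≤ K) :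
    ∑ z ∈ Z, F z ≤ K * ∑ e ∈ range D, F (e : ℤ) := by
  have hDZ : (0 : ℤ) < D := by exact_mod_cast hD
  have hmaps : ∀ z ∈ Z, (z % (D : ℤ)).toNat ∈ range D := by
    intro z _
    rw [mem_range]
    have h1 := Int.emod_lt_of_pos z hDZ
    have h0 := Int.emod_nonneg z hDZ.ne'
    omega
  rw [← Finset.sum_fiberwise_of_maps_to hmaps, Finset.mul_sum]
  apply Finset.sum_le_sum
  intro e he
  have hsub : (Z.filter fun z => (z % (D : ℤ)).toNat = e) ⊆ Z.filter fun z => (D : ℤ) ∣ z - (e : ℤ) := by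
    intro z hz
    rw [mem_filter] at hz ⊢
    refine ⟨hz.1, ?_⟩
    have h0 := Int.emod_nonneg z hDZ.ne'
    have h2 : z % (D : ℤ) = (e : ℤ) := by
      rw [← hz.2]; exact (Int.toNat_of_nonneg h0).symm
    rw [← h2]
    exact Int.dvd_self_sub_emod
  calc ∑ z ∈ Z.filter (fun z => (z % (D : ℤ)).toNat = e), F z
      ≤ ∑ z ∈ Z.filter (fun z => (D : ℤ) ∣ z - (e : ℤ)), F z :=
        Finset.sum_le_sum_of_subset_of_nonneg hsub fun z _ _ => hF0 z
    _ = ∑ z ∈ Z.filter (fun z => (D : ℤ) ∣ z - (e : ℤ)), F (e : ℤ) := by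
        apply Finset.sum_congr rfl
        intro z hz
        exact s2_per_congr hF (mem_filter.1 hz).2
    _ = ((Z.filter (fun z => (D : ℤ) ∣ z - (e : ℤ))).card : ℝ) * F (e : ℤ) := by
        rw [Finset.sum_const, nsmul_eq_mul]
    _ ≤ K * F (e : ℤ) := mul_le_mul_of_nonneg_right (hK e) (hF0 _)

theorem s2_part_eq (ρ a' Q N G : ℝ) (hQ : Q ≠ 0) :
    (ρ * (2 * a') / Q * G) * (Q / N) = ρ * G * (2 * (a' / N)) := by
  field_simp

open scoped Classical in
/-- elements of `S` (forward invariant) of the window whose itinerary is in the group of `M` and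
whose `k`-th iterate lies in the window of `a' = |M| a / d^k` -/
theorem group_count (h : Adm d m r) {S : Set ℤ} (hS : ∀ x ∈ S, Tm d m r x ∈ S) {a : ℝ} (ha : 0 < a)
    {k Q Q₀ : ℕ} (hQ : 0 < Q) (hQ₀ : 0 < Q₀) (hQQ : Q₀ ∣ Q) (hQd : Nat.Coprime Q d)
    (hk : (d : ℝ) ^ k * Q ≤ a) (c : ℤ) {M : ℤ} (hM : M ∈ Ms d m k) {ρ : ℝ} (hρ : 0 ≤ ρ)
    (hPB : PB S (|(M : ℝ)| * a / (d : ℝ) ^ k) Q₀ ρ) :
    ({x : ℤ | x ∈ S ∧ (Q : ℤ) ∣ x - c ∧ Mw m (wd d m r k x) = M ∧
        |(M : ℝ)| * a / (d : ℝ) ^ k ≤ |(((Tm d m r)^[k] x : ℤ) : ℝ)| ∧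
        |(((Tm d m r)^[k] x : ℤ) : ℝ)| < 2 * (|(M : ℝ)| * a / (d : ℝ) ^ k)}.ncard : ℝ)
      ≤ ρ * (gr d m k M).card * (2 * a) / ((d : ℝ) ^ k * Q)
        + 4 * a / ((d : ℝ) ^ k * Q) * tv (gr d m k M) (Ww d m r) Q₀ (M.natAbs * Q) := by
  have hd2 : 2 ≤ d := h.two_le
  have hd0 : (0 : ℝ) < d := by exact_mod_cast (by omega : 0 < d)
  have hdk : (0 : ℝ) < (d : ℝ) ^ k := pow_pos hd0 k
  have hQR : (0 : ℝ) < Q := by exact_mod_cast hQ
  have hQ0R : (0 : ℝ) < Q₀ := by exact_mod_cast hQ₀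
  -- the multiplier
  obtain ⟨w₀, hw₀, hw₀M⟩ := Finset.mem_image.1 hM
  have hM0 : M ≠ 0 := by rw [← hw₀M]; exact Mw_ne_zero h (mem_LW.1 hw₀).2
  have hMd : IsCoprime M (d : ℤ) := by rw [← hw₀M]; exact Mw_cop h (mem_LW.1 hw₀).2
  have hMR : (0 : ℝ) < |(M : ℝ)| := abs_pos.2 (by exact_mod_cast hM0)
  have hMnat : ((M.natAbs : ℕ) : ℝ) = |(M : ℝ)| := by
    rw [Nat.cast_natAbs, Int.cast_abs]
  set N : ℕ := M.natAbs * Q with hN
  have hNpos : 0 < N := Nat.mul_pos (Int.natAbs_pos.2 hM0) hQ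
  have hNR : (N : ℝ) = |(M : ℝ)| * Q := by rw [hN, Nat.cast_mul, hMnat]
  have hNR0 : (0 : ℝ) < N := by exact_mod_cast hNpos
  set a' : ℝ := |(M : ℝ)| * a / (d : ℝ) ^ k with ha'
  have ha'0 : 0 < a' := by positivity
  have ha'N : a' / N = a / ((d : ℝ) ^ k * Q) := by
    rw [ha', hNR]; field_simp
  have hone : 1 ≤ a' / N := by
    rw [ha'N, le_div_iff₀ (by positivity), one_mul]; exact hk
  set g := gr d m k M with hg
  -- coprimality
  have hdkQ₀ : IsCoprime (-(d : ℤ) ^ k) (Q₀ : ℤ) := by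
    have : Nat.Coprime (d ^ k) Q₀ := (Nat.Coprime.coprime_dvd_left hQQ hQd).symm.pow_left k
    have h2 : IsCoprime ((d : ℤ) ^ k) (Q₀ : ℤ) := by
      have := Nat.isCoprime_iff_coprime.2 this
      push_cast at this
      exact this
    exact h2.neg_left
  have hdkN : IsCoprime (-(d : ℤ) ^ k) (N : ℤ) := by
    have h1 : IsCoprime ((d : ℤ) ^ k) M := (hMd.symm).pow_left
    have h2 : IsCoprime ((d : ℤ) ^ k) (Q : ℤ) := by
      have := Nat.isCoprime_iff_coprime.2 (hQd.symm.pow_left k)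
      push_cast at this
      exact this
    have h3 : IsCoprime ((d : ℤ) ^ k) (M * Q) := h1.mul_right h2
    have h4 : IsCoprime ((d : ℤ) ^ k) (N : ℤ) := by
      refine IsCoprime.of_isCoprime_of_dvd_right h3 ?_
      rw [hN, Nat.cast_mul]
      exact mul_dvd_mul (Int.natAbs_dvd.2 dvd_rfl) dvd_rfl
    exact h4.neg_left
  have hQ0N : Q₀ ∣ N := dvd_mul_of_dvd_right hQQ _
  -- forward invariance
  have hSk : ∀ (n : ℕ) (x : ℤ), x ∈ S → (Tm d m r)^[n] x ∈ S := by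
    intro n
    induction n with
    | zero => intro x hx; simpa using hx
    | succ n ih => intro x hx; rw [Function.iterate_succ_apply]; exact ih _ (hS x hx)
  -- the finite set of endpoints
  have hfinW : {x : ℤ | a' ≤ |(x : ℝ)| ∧ |(x : ℝ)| < 2 * a' ∧ ((1 : ℕ) : ℤ) ∣ x - 0}.Finite :=
    (win_le ha'0.le (by linarith) (Q := 1) (by norm_num) 0).1
  have hfinZ : {z : ℤ | z ∈ S ∧ a' ≤ |(z : ℝ)| ∧ |(z : ℝ)| < 2 * a'}.Finite := by
    apply hfinW.subset
    rintro z ⟨_, h1, h2⟩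
    exact ⟨h1, h2, by simp⟩
  set Z : Finset ℤ := hfinZ.toFinset with hZ
  have hZmem : ∀ z, z ∈ Z ↔ z ∈ S ∧ a' ≤ |(z : ℝ)| ∧ |(z : ℝ)| < 2 * a' := by
    intro z; rw [hZ, Set.Finite.mem_toFinset]; rfl
  -- step 1: the count is at most the sum of the counts of offsets
  have step1 : ({x : ℤ | x ∈ S ∧ (Q : ℤ) ∣ x - c ∧ Mw m (wd d m r k x) = M ∧
        a' ≤ |(((Tm d m r)^[k] x : ℤ) : ℝ)| ∧
        |(((Tm d m r)^[k] x : ℤ) : ℝ)| < 2 * a'}.ncard : ℝ)
      ≤ ∑ z ∈ Z, cnt g (Ww d m r) N (M * c - (d : ℤ) ^ k * z) := by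
    set U : Finset (ℤ × List ℕ) := (Z ×ˢ g).filter fun p =>
      (N : ℤ) ∣ Ww d m r p.2 - (M * c - (d : ℤ) ^ k * p.1) with hU
    have hcard : (U.card : ℝ) = ∑ z ∈ Z, cnt g (Ww d m r) N (M * c - (d : ℤ) ^ k * z) := by
      have : U.card = ∑ z ∈ Z, (g.filter fun w =>
          (N : ℤ) ∣ Ww d m r w - (M * c - (d : ℤ) ^ k * z)).card := by
        rw [hU, Finset.card_filter, Finset.sum_product]
        apply Finset.sum_congr rfl
        intro z _
        rw [Finset.card_filter]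
      rw [this, Nat.cast_sum]
      rfl
    rw [← hcard]
    have hle : {x : ℤ | x ∈ S ∧ (Q : ℤ) ∣ x - c ∧ Mw m (wd d m r k x) = M ∧
        a' ≤ |(((Tm d m r)^[k] x : ℤ) : ℝ)| ∧
        |(((Tm d m r)^[k] x : ℤ) : ℝ)| < 2 * a'}.ncard ≤ (U : Set (ℤ × List ℕ)).ncard := by
      apply Set.ncard_le_ncard_of_injOn (fun x => ((Tm d m r)^[k] x, wd d m r k x))
      · rintro x ⟨hxS, hxQ, hxM, hx1, hx2⟩
        rw [Finset.mem_coe, hU, Finset.mem_filter, Finset.mem_product]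
        refine ⟨⟨(hZmem _).2 ⟨hSk k x hxS, hx1, hx2⟩, ?_⟩, ?_⟩
        · rw [hg]; exact mem_gr.2 ⟨wd_mem hd2 k x, hxM⟩
        · have hit := iter_eq h k x
          rw [hxM] at hit
          have : Ww d m r (wd d m r k x) - (M * c - (d : ℤ) ^ k * (Tm d m r)^[k] x)
              = M * (x - c) := by linarith
          show (N : ℤ) ∣ Ww d m r (wd d m r k x) - (M * c - (d : ℤ) ^ k * (Tm d m r)^[k] x)
          rw [this, hN, Nat.cast_mul]
          exact mul_dvd_mul (Int.natAbs_dvd.2 dvd_rfl) hxQ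
      · rintro x ⟨_, _, hxM, _, _⟩ y ⟨_, _, hyM, _, _⟩ hxy
        have h1 : (Tm d m r)^[k] x = (Tm d m r)^[k] y := congrArg Prod.fst hxy
        have h2 : wd d m r k x = wd d m r k y := congrArg Prod.snd hxy
        have hx := iter_eq h k x
        have hy := iter_eq h k y
        rw [h2, hyM] at hx
        rw [hyM] at hy
        rw [h1] at hx
        have : M * x = M * y := by linarith
        exact mul_left_cancel₀ hM0 this
    rw [Set.ncard_coe_finset] at hle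
    exact_mod_cast hle
  -- the deviations
  set dev : ℤ → ℝ := fun e => |cnt g (Ww d m r) N e - cnt g (Ww d m r) Q₀ e * Q₀ / N| with hdev
  have step2 : ∀ z : ℤ, cnt g (Ww d m r) N (M * c - (d : ℤ) ^ k * z)
      ≤ cnt g (Ww d m r) Q₀ (M * c - (d : ℤ) ^ k * z) * (Q₀ / N)
        + dev (M * c - (d : ℤ) ^ k * z) := by
    intro z
    have := le_abs_self (cnt g (Ww d m r) N (M * c - (d : ℤ) ^ k * z)
      - cnt g (Ww d m r) Q₀ (M * c - (d : ℤ) ^ k * z) * Q₀ / N)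
    simp only [hdev]
    rw [mul_div_assoc] at this
    rw [mul_div_assoc]
    linarith
  -- part 1
  have hper0 : ∀ x : ℤ, cnt g (Ww d m r) Q₀ (x + Q₀) = cnt g (Ww d m r) Q₀ x := by
    intro x; exact cnt_congr g _ (by simp)
  have part1 : ∑ z ∈ Z, cnt g (Ww d m r) Q₀ (M * c - (d : ℤ) ^ k * z)
      ≤ ρ * (2 * a') / Q₀ * g.card := by
    have hs := s2_sum_classes Z hQ₀ (F := fun z => cnt g (Ww d m r) Q₀ (M * c - (d : ℤ) ^ k * z))
      (K := ρ * (2 * a') / Q₀) ?_ ?_ ?_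
    · refine hs.trans (le_of_eq ?_)
      congr 1
      have := sum_affine hQ₀ hper0 hdkQ₀ (M * c)
      rw [← sum_cnt g (Ww d m r) hQ₀, ← this]
      apply Finset.sum_congr rfl
      intro e _
      congr 1
      ring
    · intro x
      show cnt g (Ww d m r) Q₀ (M * c - (d : ℤ) ^ k * (x + Q₀)) = _
      exact cnt_congr g _ ⟨-(d : ℤ) ^ k, by ring⟩
    · intro x; exact cnt_nonneg _ _ _ _
    · intro e
      have hb := hPB e
      unfold wc at hb
      refine le_trans (le_of_eq ?_) hb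
      have : ((Z.filter fun z => (Q₀ : ℤ) ∣ z - e : Finset ℤ) : Set ℤ)
          = {x : ℤ | x ∈ S ∧ a' ≤ |(x : ℝ)| ∧ |(x : ℝ)| < 2 * a' ∧ (Q₀ : ℤ) ∣ x - e} := by
        ext z
        rw [Finset.mem_coe, Finset.mem_filter, hZmem]
        simp only [Set.mem_ofPred_eq]
        tauto
      rw [← this, Set.ncard_coe_finset]
  -- part 2
  have hperN : ∀ x : ℤ, dev (x + N) = dev x := by
    intro x
    simp only [hdev]
    rw [cnt_congr g (Ww d m r) (D := N) (c := x + N) (c' := x) (by simp),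
      cnt_congr g (Ww d m r) (D := Q₀) (c := x + N) (c' := x)
        (by simpa using (Int.natCast_dvd_natCast.2 hQ0N))]
  have part2 : ∑ z ∈ Z, dev (M * c - (d : ℤ) ^ k * z)
      ≤ 4 * a / ((d : ℝ) ^ k * Q) * tv g (Ww d m r) Q₀ N := by
    have hs := s2_sum_classes Z hNpos (F := fun z => dev (M * c - (d : ℤ) ^ k * z))
      (K := 4 * a / ((d : ℝ) ^ k * Q)) ?_ ?_ ?_
    · refine hs.trans (le_of_eq ?_)
      congr 1
      have := sum_affine hNpos hperN hdkN (M * c)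
      rw [tv]
      rw [show (∑ c ∈ range N, |cnt g (Ww d m r) N (c : ℤ) - cnt g (Ww d m r) Q₀ (c : ℤ) * Q₀ / N|)
        = ∑ c ∈ range N, dev (c : ℤ) from rfl, ← this]
      apply Finset.sum_congr rfl
      intro e _
      congr 1
      ring
    · intro x
      show dev (M * c - (d : ℤ) ^ k * (x + N)) = _
      exact s2_per_congr hperN ⟨-(d : ℤ) ^ k, by ring⟩
    · intro x; exact abs_nonneg _
    · intro e
      have hb := (win_le ha'0.le (by linarith : a' ≤ 2 * a') hNpos e)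
      have h1 : (((Z.filter fun z => (N : ℤ) ∣ z - e : Finset ℤ).card : ℕ) : ℝ)
          ≤ ({x : ℤ | a' ≤ |(x : ℝ)| ∧ |(x : ℝ)| < 2 * a' ∧ (N : ℤ) ∣ x - e}.ncard : ℝ) := by
        have : ((Z.filter fun z => (N : ℤ) ∣ z - e : Finset ℤ) : Set ℤ)
            ⊆ {x : ℤ | a' ≤ |(x : ℝ)| ∧ |(x : ℝ)| < 2 * a' ∧ (N : ℤ) ∣ x - e} := by
          intro z hz
          rw [Finset.mem_coe, Finset.mem_filter, hZmem] at hz
          exact ⟨hz.1.2.1, hz.1.2.2, hz.2⟩
        have h2 := Set.ncard_le_ncard this hb.1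
        rw [Set.ncard_coe_finset] at h2
        exact_mod_cast h2
      refine h1.trans (hb.2.trans ?_)
      have : (2 * a' - a') / N = a' / N := by ring
      rw [this]
      have h3 : 4 * a / ((d : ℝ) ^ k * Q) = 4 * (a' / N) := by rw [ha'N]; ring
      rw [h3]
      linarith
  -- conclusion
  calc _ ≤ ∑ z ∈ Z, cnt g (Ww d m r) N (M * c - (d : ℤ) ^ k * z) := step1
    _ ≤ ∑ z ∈ Z, (cnt g (Ww d m r) Q₀ (M * c - (d : ℤ) ^ k * z) * (Q₀ / N)
        + dev (M * c - (d : ℤ) ^ k * z)) := Finset.sum_le_sum fun z _ => step2 z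
    _ = (∑ z ∈ Z, cnt g (Ww d m r) Q₀ (M * c - (d : ℤ) ^ k * z)) * (Q₀ / N)
        + ∑ z ∈ Z, dev (M * c - (d : ℤ) ^ k * z) := by
        rw [Finset.sum_add_distrib, Finset.sum_mul]
    _ ≤ (ρ * (2 * a') / Q₀ * g.card) * (Q₀ / N)
        + 4 * a / ((d : ℝ) ^ k * Q) * tv g (Ww d m r) Q₀ N := by
        apply add_le_add _ part2
        exact mul_le_mul_of_nonneg_right part1 (by positivity)
    _ = ρ * g.card * (2 * a) / ((d : ℝ) ^ k * Q)
        + 4 * a / ((d : ℝ) ^ k * Q) * tv g (Ww d m r) Q₀ N := by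
        congr 1
        rw [s2_part_eq ρ a' (Q₀ : ℝ) (N : ℝ) (g.card : ℝ) hQ0R.ne', ha'N]
        ring

end Pool.Agent.H319R3.GC
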