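import Pool.Agent.H33.G.R_seed8.H319R3.GC.Defs
import Pool.Agent.H33.G.R_seed8.H319R3.GC.W1
import Pool.Agent.H33.G.R_seed8.H319R3.GC.F2
import Pool.Agent.H33.G.R_seed8.H319R3.GC.TV
import Pool.Agent.H33.G.R_seed8.H319R3.GC.D1

/-! File TG: total variation summed over the multipliers. -/

set_option autoImplicit false

namespace Pool.Agent.H319R3.GC

open Finset

variable {d : ℕ} {m r : ℕ → ℤ}

theorem TG_tv_self {ι : Type*} (s : Finset ι) (v : ι → ℤ) {D : ℕ} (hD : 0 < D) :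
    tv s v D D = 0 := by
  unfold tv
  refine Finset.sum_eq_zero fun c _ => ?_
  have : (D : ℝ) ≠ 0 := by positivity
  rw [mul_div_cancel_right₀ _ this, sub_self, abs_zero]

theorem TG_up {ι : Type*} (s : Finset ι) (v : ι → ℤ) {P q₀ : ℕ} (hP : 1 ≤ P) {G : ℝ} (n : ℕ)
    (h : ∀ j, q₀ ≤ j → j < q₀ + n → Gam s v (P ^ j) P ≤ G) :
    tv s v (P ^ q₀) (P ^ (q₀ + n)) ≤ n * √(G * s.card) := by
  induction n with
  | zero =>
    rw [add_zero, TG_tv_self s v (Nat.pow_pos hP)]; simp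
  | succ n ih =>
    have h1 := ih (fun j h1 h2 => h j h1 (by omega))
    have h2 := tv_trans s v (D := P ^ q₀) (E := P ^ (q₀ + n)) (N := P ^ (q₀ + (n + 1)))
      (Nat.pow_pos hP) (pow_dvd_pow _ (by omega)) (pow_dvd_pow _ (by omega))
    have h3 : tv s v (P ^ (q₀ + n)) (P ^ (q₀ + (n + 1))) ≤ √(G * s.card) := by
      have e : P ^ (q₀ + (n + 1)) = P ^ (q₀ + n) * P := by rw [← add_assoc, pow_succ]
      rw [e]
      refine (tv_step s v (Nat.pow_pos hP) hP).trans (Real.sqrt_le_sqrt ?_)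
      exact mul_le_mul_of_nonneg_right (h _ (by omega) (by omega)) (Nat.cast_nonneg _)
    push_cast
    linarith

theorem TG_Gam_le (h : Adm d m r) (k : ℕ) {M : ℤ} (hM : M ∈ Ms d m k) (D R : ℕ) :
    Gam (gr d m k M) (Ww d m r) D R ≤ (d : ℝ) ^ k * gg d m r k D R := by
  unfold gg
  have hd : (d : ℝ) ^ k ≠ 0 := by
    have := h.two_le
    have : (0 : ℝ) < d := by exact_mod_cast (by omega : 0 < d)
    positivity
  rw [mul_div_cancel₀ _ hd]
  exact Finset.single_le_sum (f := fun M => Gam (gr d m k M) (Ww d m r) D R)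
    (fun M' _ => Gam_nonneg _ _ _ _) hM

theorem TG_log (P n : ℕ) (hP : 1 ≤ P) : Nat.log 2 (P ^ n) ≤ n * (Nat.log 2 P + 1) := by
  have h1 : P < 2 ^ (Nat.log 2 P + 1) := Nat.lt_pow_succ_log_self (by norm_num) P
  have h2 : P ^ n ≤ 2 ^ (n * (Nat.log 2 P + 1)) := by
    rw [mul_comm n, pow_mul]
    exact Nat.pow_le_pow_left h1.le n
  calc Nat.log 2 (P ^ n) ≤ Nat.log 2 (2 ^ (n * (Nat.log 2 P + 1))) := Nat.log_mono_right h2
    _ = n * (Nat.log 2 P + 1) := Nat.log_pow (by norm_num) _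

open scoped Classical in
theorem tv_groups (h : Adm d m r) (B : ℕ) : ∃ δ : ℝ, 0 < δ ∧ δ ≤ 1 ∧ ∀ ν : ℝ, 0 < ν → ∃ C : ℝ, 0 < C ∧
    ∀ k i₁ i₂ q₀ q : ℕ, 1 ≤ k → ν * k ≤ q₀ → q₀ ≤ q → (q : ℝ) ≤ k → i₁ ≤ i₂ →
      ((i₂ + q : ℕ) : ℝ) ≤ (1 + δ) * ((i₁ + q : ℕ) : ℝ) →
      (1 - δ) * d * ((i₁ + q : ℕ) : ℝ) ≤ k →
      ∑ M ∈ (Ms d m k).filter (fun M => PP d m ^ i₁ ∣ M.natAbs ∧ M.natAbs ∣ PP d m ^ i₂),
        tv (gr d m k M) (Ww d m r) (PP d m ^ q₀) (M.natAbs * PP d m ^ q) ≤ C * (d : ℝ) ^ k / (k : ℝ) ^ B := by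
  set E : ℕ := B + d + 1 with hE
  obtain ⟨δ', C', hδ', hδ'1, hC', hdec⟩ := decay h (4 * E)
  set P : ℕ := PP d m
  have hP2 : 2 ≤ P := h.big
  have hP1 : 1 ≤ P := by omega
  have hd2 := h.two_le
  have hd0 : (0 : ℝ) < d := by exact_mod_cast (by omega : 0 < d)
  have hd2' : (2 : ℝ) ≤ d := by exact_mod_cast hd2
  refine ⟨min δ' (1 / 2), lt_min hδ' (by norm_num), (min_le_left _ _).trans hδ'1, ?_⟩
  intro ν hν
  set δ := min δ' (1 / 2) with hδ
  have hδa : δ ≤ δ' := min_le_left _ _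
  have hδb : δ ≤ 1 / 2 := min_le_right _ _
  have hδ0 : 0 < δ := lt_min hδ' (by norm_num)
  set L : ℕ := Nat.log 2 P with hL
  refine ⟨2 ^ d * (2 * L + 3) * √C' / ν ^ E, by positivity, ?_⟩
  intro k i₁ i₂ q₀ q hk hq₀ hq₀q hqk hi h1 h2
  have hkR : (1 : ℝ) ≤ k := by exact_mod_cast hk
  have hνk : 0 < ν * k := by positivity
  have hq₀pos : (0 : ℝ) < q₀ := hνk.trans_le hq₀
  have hq₀1 : 1 ≤ q₀ := by
    have : 0 < q₀ := by exact_mod_cast hq₀pos
    omega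
  -- the lengths
  have hjk : ((i₁ + q : ℕ) : ℝ) ≤ k := by
    have h3 : (1 : ℝ) ≤ (1 - δ) * d := by nlinarith
    have h4 : (0 : ℝ) ≤ ((i₁ + q : ℕ) : ℝ) := Nat.cast_nonneg _
    nlinarith
  have hi2k : ((i₂ + q : ℕ) : ℝ) ≤ 2 * k := by
    have h4 : (0 : ℝ) ≤ ((i₁ + q : ℕ) : ℝ) := Nat.cast_nonneg _
    nlinarith
  set G : ℝ := (d : ℝ) ^ k * (C' / (√(ν * k)) ^ (4 * E)) with hG
  have hG0 : 0 ≤ G := by positivity
  have hGE : G = (d : ℝ) ^ k * (C' / ((ν * k) ^ E) ^ 2) := by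
    rw [hG]
    congr 2
    have : (√(ν * k)) ^ (4 * E) = ((√(ν * k)) ^ 2) ^ (2 * E) := by
      rw [← pow_mul]; congr 1; ring
    rw [this, Real.sq_sqrt hνk.le, ← pow_mul, mul_comm E 2]
  -- the bound for `Gam`
  have hGam : ∀ M ∈ Ms d m k, ∀ j D R : ℕ, q₀ ≤ j → j ≤ i₁ + q → P ^ j ∣ D →
      D ∣ P ^ ⌊(1 + δ') * j⌋₊ → 1 ≤ R → R ∣ P → Gam (gr d m k M) (Ww d m r) D R ≤ G := by
    intro M hM j D R hj1 hj2 hD1 hD2 hR1 hR2
    refine (TG_Gam_le h k hM D R).trans ?_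
    rw [hG]
    refine mul_le_mul_of_nonneg_left ?_ (by positivity)
    have hj2' : (j : ℝ) ≤ ((i₁ + q : ℕ) : ℝ) := by exact_mod_cast hj2
    have hjR : (0 : ℝ) ≤ j := Nat.cast_nonneg _
    have hcond : (1 - δ') * d * j ≤ k := by
      refine le_trans ?_ h2
      have h5 : (1 - δ') * d ≤ (1 - δ) * d := mul_le_mul_of_nonneg_right (by linarith) hd0.le
      have h6 : (0 : ℝ) ≤ (1 - δ) * d := mul_nonneg (by linarith) hd0.le
      calc (1 - δ') * d * j ≤ (1 - δ) * d * j := mul_le_mul_of_nonneg_right h5 hjR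
        _ ≤ (1 - δ) * d * ((i₁ + q : ℕ) : ℝ) := mul_le_mul_of_nonneg_left hj2' h6
    refine (hdec j D k R (by omega) hD1 hD2 hcond hR1 hR2).trans ?_
    refine div_le_div_of_nonneg_left hC'.le (by positivity) ?_
    refine pow_le_pow_left₀ (Real.sqrt_nonneg _) (Real.sqrt_le_sqrt ?_) _
    have : (q₀ : ℝ) ≤ j := by exact_mod_cast hj1
    linarith
  have hfl : ∀ j : ℕ, j ≤ ⌊(1 + δ') * (j : ℝ)⌋₊ := by
    intro j
    apply Nat.le_floor
    have : (0 : ℝ) ≤ j := Nat.cast_nonneg _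
    nlinarith
  -- one multiplier
  have hone : ∀ M ∈ (Ms d m k).filter (fun M => P ^ i₁ ∣ M.natAbs ∧ M.natAbs ∣ P ^ i₂),
      tv (gr d m k M) (Ww d m r) (P ^ q₀) (M.natAbs * P ^ q) ≤
        (2 * L + 3) * k * ((d : ℝ) ^ k * (√C' / (ν * k) ^ E)) := by
    intro M hM
    rw [Finset.mem_filter] at hM
    obtain ⟨hM, hM1, hM2⟩ := hM
    have hMpos : 0 < M.natAbs := Nat.pos_of_dvd_of_pos hM2 (Nat.pow_pos hP1)
    have hNpos : 0 < M.natAbs * P ^ q := Nat.mul_pos hMpos (Nat.pow_pos hP1)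
    have hDN : P ^ (i₁ + q) ∣ M.natAbs * P ^ q := by
      rw [pow_add]; exact Nat.mul_dvd_mul_right hM1 _
    have hND : M.natAbs * P ^ q ∣ P ^ (i₂ + q) := by
      rw [pow_add]; exact Nat.mul_dvd_mul_right hM2 _
    have hcard : ((gr d m k M).card : ℝ) ≤ (d : ℝ) ^ k := by
      have : (gr d m k M).card ≤ (LW d k).card := Finset.card_le_card (Finset.filter_subset _ _)
      rw [card_LW] at this
      exact_mod_cast this
    have hsq : √(G * (gr d m k M).card) ≤ (d : ℝ) ^ k * (√C' / (ν * k) ^ E) := by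
      have e : (d : ℝ) ^ k * (√C' / (ν * k) ^ E) = √(G * (d : ℝ) ^ k) := by
        have h7 : √C' * √C' = C' := Real.mul_self_sqrt hC'.le
        have h8 : G * (d : ℝ) ^ k = ((d : ℝ) ^ k * (√C' / (ν * k) ^ E)) ^ 2 := by
          calc G * (d : ℝ) ^ k
              = (d : ℝ) ^ k * (d : ℝ) ^ k * (√C' * √C') / ((ν * k) ^ E) ^ 2 := by
                rw [hGE, h7]; ring
            _ = _ := by ring
        rw [h8, Real.sqrt_sq (by positivity)]
      rw [e]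
      exact Real.sqrt_le_sqrt (mul_le_mul_of_nonneg_left hcard hG0)
    set sq := √(G * (gr d m k M).card) with hsqd
    have hsq0 : 0 ≤ sq := Real.sqrt_nonneg _
    -- first part
    have p1 : tv (gr d m k M) (Ww d m r) (P ^ q₀) (P ^ (i₁ + q)) ≤ k * sq := by
      obtain ⟨n, hn⟩ : ∃ n, i₁ + q = q₀ + n := ⟨i₁ + q - q₀, by omega⟩
      rw [hn]
      refine (TG_up (gr d m k M) (Ww d m r) (q₀ := q₀) hP1 (G := G) n ?_).trans ?_
      · intro j hj1 hj2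
        exact hGam M hM j (P ^ j) P hj1 (by omega) dvd_rfl (pow_dvd_pow _ (hfl j)) hP1 dvd_rfl
      · refine mul_le_mul_of_nonneg_right ?_ hsq0
        have : (n : ℝ) ≤ ((i₁ + q : ℕ) : ℝ) := by exact_mod_cast (by omega : n ≤ i₁ + q)
        linarith
    -- second part
    have p2 : tv (gr d m k M) (Ww d m r) (P ^ (i₁ + q)) (M.natAbs * P ^ q) ≤
        (2 * (L + 1)) * k * sq := by
      have h3 : M.natAbs * P ^ q ∣ P ^ (i₁ + q) * P ^ (i₂ - i₁) := by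
        rw [← pow_add, show i₁ + q + (i₂ - i₁) = i₂ + q by omega]
        exact hND
      refine (tv_chain (gr d m k M) (Ww d m r) (P := P) (n := i₂ - i₁) (Nat.pow_pos hP1) hNpos hDN
        h3 (G := G) hG0 ?_).trans ?_
      · intro E' R hE1 hE2 hR1 hR2
        refine hGam M hM (i₁ + q) E' R (by omega) le_rfl hE1 ?_ hR1 hR2
        refine (hE2.trans hND).trans (pow_dvd_pow _ ?_)
        apply Nat.le_floor
        have h5 : (0 : ℝ) ≤ ((i₁ + q : ℕ) : ℝ) := Nat.cast_nonneg _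
        nlinarith
      · refine mul_le_mul_of_nonneg_right ?_ hsq0
        have h4 : Nat.log 2 (M.natAbs * P ^ q / P ^ (i₁ + q)) ≤ (i₂ + q) * (L + 1) := by
          refine le_trans (Nat.log_mono_right ?_) (TG_log P (i₂ + q) hP1)
          exact (Nat.div_le_self _ _).trans (Nat.le_of_dvd (Nat.pow_pos hP1) hND)
        have h5 : ((Nat.log 2 (M.natAbs * P ^ q / P ^ (i₁ + q)) : ℕ) : ℝ)
            ≤ ((i₂ + q : ℕ) : ℝ) * (L + 1) := by exact_mod_cast h4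
        have h6 : (0 : ℝ) ≤ (L : ℝ) + 1 := by positivity
        calc ((Nat.log 2 (M.natAbs * P ^ q / P ^ (i₁ + q)) : ℕ) : ℝ)
            ≤ ((i₂ + q : ℕ) : ℝ) * (L + 1) := h5
          _ ≤ (2 * k) * (L + 1) := mul_le_mul_of_nonneg_right hi2k h6
          _ = (2 * (L + 1)) * k := by ring
    have h3 := tv_trans (gr d m k M) (Ww d m r) (D := P ^ q₀) (E := P ^ (i₁ + q))
      (N := M.natAbs * P ^ q) hNpos (pow_dvd_pow _ (by omega)) hDN
    calc tv (gr d m k M) (Ww d m r) (P ^ q₀) (M.natAbs * P ^ q)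
        ≤ k * sq + (2 * (L + 1)) * k * sq := by linarith
      _ = (2 * L + 3) * k * sq := by ring
      _ ≤ _ := mul_le_mul_of_nonneg_left hsq (by positivity)
  have hsum := Finset.sum_le_sum hone
  rw [Finset.sum_const, nsmul_eq_mul] at hsum
  refine hsum.trans ?_
  have hcardM : ((((Ms d m k).filter (fun M => P ^ i₁ ∣ M.natAbs ∧ M.natAbs ∣ P ^ i₂)).card : ℕ) : ℝ)
      ≤ (2 * k) ^ d := by
    have h3 : ((Ms d m k).filter (fun M => P ^ i₁ ∣ M.natAbs ∧ M.natAbs ∣ P ^ i₂)).card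
        ≤ (k + 1) ^ d := (Finset.card_le_card (Finset.filter_subset _ _)).trans (card_Ms k)
    have h4 : ((((Ms d m k).filter (fun M => P ^ i₁ ∣ M.natAbs ∧ M.natAbs ∣ P ^ i₂)).card : ℕ) : ℝ)
        ≤ ((k : ℝ) + 1) ^ d := by exact_mod_cast h3
    exact h4.trans (pow_le_pow_left₀ (by positivity) (by linarith) d)
  calc ((((Ms d m k).filter (fun M => P ^ i₁ ∣ M.natAbs ∧ M.natAbs ∣ P ^ i₂)).card : ℕ) : ℝ) *
        ((2 * L + 3) * k * ((d : ℝ) ^ k * (√C' / (ν * k) ^ E)))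
      ≤ (2 * k) ^ d * ((2 * L + 3) * k * ((d : ℝ) ^ k * (√C' / (ν * k) ^ E))) :=
        mul_le_mul_of_nonneg_right hcardM (by positivity)
    _ = 2 ^ d * (2 * L + 3) * √C' / ν ^ E * (d : ℝ) ^ k / (k : ℝ) ^ B := by
        have hk0 : (k : ℝ) ≠ 0 := by positivity
        have hν0 : ν ≠ 0 := hν.ne'
        have hEk : (k : ℝ) ^ E = (k : ℝ) ^ B * (k : ℝ) ^ d * k := by
          rw [hE, pow_succ, pow_add]
        rw [mul_pow, mul_pow, hEk]
        field_simp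

end Pool.Agent.H319R3.GC
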