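import Pool.Agent.H33.G.R_seed8.H319R3.GC.M1
import Pool.Agent.H33.G.R_seed8.H319R3.GC.M2
import Pool.Agent.H33.G.R_seed8.H319R3.GC.S2
import Pool.Agent.H33.G.R_seed8.H319R3.GC.TG

/-! The one stage inequality (task S3). -/

set_option autoImplicit false

namespace Pool.Agent.H319R3.GC
open Finset

variable {d : ℕ} {m r : ℕ → ℤ}

/-- stretched exponentials beat powers -/
theorem s3_exp (c : ℝ) (hc : 0 < c) (B : ℕ) :
    ∃ K : ℝ, 0 < K ∧ ∀ t : ℝ, 0 < t → Real.exp (-(c * √t)) ≤ K / t ^ B := by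
  refine ⟨((2 * B).factorial : ℝ) / c ^ (2 * B), by positivity, ?_⟩
  intro t ht
  have hx : 0 < c * √t := by positivity
  have h1 := Real.pow_div_factorial_le_exp (c * √t) hx.le (2 * B)
  have hf : (0 : ℝ) < ((2 * B).factorial : ℝ) := by exact_mod_cast Nat.factorial_pos _
  have h2 : (c * √t) ^ (2 * B) = c ^ (2 * B) * t ^ B := by
    rw [mul_pow, pow_mul (√t), Real.sq_sqrt ht.le]
  rw [h2] at h1
  rw [Real.exp_neg, div_div, ← one_div]
  rw [one_div_le (Real.exp_pos _) (by positivity)]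
  rw [one_div_div]
  exact h1

/-- finiteness of the preimage of a bounded set -/
theorem s3_fin (h : Adm d m r) (k : ℕ) (b : ℝ) :
    {x : ℤ | |(((Tm d m r)^[k] x : ℤ) : ℝ)| < b}.Finite := by
  set K : ℝ := (d : ℝ) ^ k * b + ∑ w ∈ LW d k, |(Ww d m r w : ℝ)| with hK
  have hsub : {x : ℤ | |(((Tm d m r)^[k] x : ℤ) : ℝ)| < b} ⊆ (Set.Icc (-⌈K⌉) ⌈K⌉) := by
    intro x hx
    have hx' : |(((Tm d m r)^[k] x : ℤ) : ℝ)| < b := hx
    have hit := iter_eq h k x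
    have hmem := wd_mem (m := m) (r := r) h.two_le k x
    have hM0 : Mw m (wd d m r k x) ≠ 0 := Mw_ne_zero h (mem_LW.1 hmem).2
    have hM1 : (1 : ℝ) ≤ |(Mw m (wd d m r k x) : ℝ)| := by
      have := Int.one_le_abs hM0
      have h2 : ((1 : ℤ) : ℝ) ≤ ((|Mw m (wd d m r k x)| : ℤ) : ℝ) := by exact_mod_cast this
      rw [Int.cast_abs] at h2
      simpa using h2
    have hitR : (d : ℝ) ^ k * (((Tm d m r)^[k] x : ℤ) : ℝ)
        = (Mw m (wd d m r k x) : ℝ) * x - (Ww d m r (wd d m r k x) : ℝ) := by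
      exact_mod_cast hit
    have hMx : (Mw m (wd d m r k x) : ℝ) * x
        = (d : ℝ) ^ k * (((Tm d m r)^[k] x : ℤ) : ℝ) + (Ww d m r (wd d m r k x) : ℝ) := by
      rw [hitR]; ring
    have hd : (0 : ℝ) ≤ (d : ℝ) ^ k := by positivity
    have h1 : |(Mw m (wd d m r k x) : ℝ) * x| ≤ K := by
      rw [hMx, hK]
      refine (abs_add_le _ _).trans (add_le_add ?_ ?_)
      · rw [abs_mul, abs_of_nonneg hd]
        exact mul_le_mul_of_nonneg_left hx'.le hd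
      · exact Finset.single_le_sum (f := fun w => |(Ww d m r w : ℝ)|)
          (fun w _ => abs_nonneg _) hmem
    rw [abs_mul] at h1
    have h2 : |(x : ℝ)| ≤ K := by
      have := mul_le_mul_of_nonneg_right hM1 (abs_nonneg (x : ℝ))
      linarith
    have h3 : |(x : ℝ)| ≤ (⌈K⌉ : ℝ) := h2.trans (Int.le_ceil K)
    have h4 : |x| ≤ ⌈K⌉ := by
      have : ((|x| : ℤ) : ℝ) ≤ (⌈K⌉ : ℝ) := by rw [Int.cast_abs]; exact h3
      exact_mod_cast this
    exact ⟨by linarith [(abs_le.1 h4).1], (abs_le.1 h4).2⟩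
  exact (Set.finite_Icc _ _).subset hsub

open scoped Classical in
/-- the counting part of the one stage inequality -/
theorem s3_count (h : Adm d m r) {S : Set ℤ} (hS : ∀ x ∈ S, Tm d m r x ∈ S) {a : ℝ} (ha : 0 < a)
    {k Q Q₀ i₁ i₂ : ℕ} (hQ : 0 < Q) (hQ₀ : 0 < Q₀) (hQQ : Q₀ ∣ Q) (hQd : Nat.Coprime Q d)
    (hk : (d : ℝ) ^ k * Q ≤ a) (c : ℤ) {ρ : ℝ} (hρ : 0 ≤ ρ) (Bad : Finset (List ℕ)) {V : ℝ}
    (hV0 : 0 ≤ V) (hVa : (d : ℝ) ^ k * V ≤ a)
    (hV : ∀ w ∈ LW d k, w ∉ Bad → |(Ww d m r w : ℝ)| ≤ (d : ℝ) ^ k * V)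
    (hcnt : ∀ w ∈ LW d k, w ∉ Bad → PP d m ^ i₁ ∣ (Mw m w).natAbs ∧ (Mw m w).natAbs ∣ PP d m ^ i₂)
    (hPB : ∀ M ∈ (Ms d m k).filter (fun M => PP d m ^ i₁ ∣ M.natAbs ∧ M.natAbs ∣ PP d m ^ i₂),
      PB S (|(M : ℝ)| * a / (d : ℝ) ^ k) Q₀ ρ) :
    wc S a Q c ≤ Bad.card * (4 * a / ((d : ℝ) ^ k * Q)) + 4 * ((d : ℝ) ^ k * V / Q + 1)
      + ρ * (2 * a) / Q
      + 4 * a / ((d : ℝ) ^ k * Q) *
        ∑ M ∈ (Ms d m k).filter (fun M => PP d m ^ i₁ ∣ M.natAbs ∧ M.natAbs ∣ PP d m ^ i₂),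
          tv (gr d m k M) (Ww d m r) Q₀ (M.natAbs * Q) := by
  have hd2 : 2 ≤ d := h.two_le
  have hd0 : (0 : ℝ) < d := by exact_mod_cast (by omega : 0 < d)
  have hdk : (0 : ℝ) < (d : ℝ) ^ k := pow_pos hd0 k
  have hQR : (0 : ℝ) < Q := by exact_mod_cast hQ
  set F := (Ms d m k).filter (fun M => PP d m ^ i₁ ∣ M.natAbs ∧ M.natAbs ∣ PP d m ^ i₂) with hF
  set E : ℝ := (d : ℝ) ^ k * V with hE
  have hE0 : 0 ≤ E := by positivity
  set A1 : Set ℤ := {x : ℤ | a ≤ |(x : ℝ)| ∧ |(x : ℝ)| < 2 * a ∧ (Q : ℤ) ∣ x - c ∧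
    wd d m r k x ∈ Bad} with hA1
  set A2 : Set ℤ := {x : ℤ | a ≤ |(x : ℝ)| ∧ |(x : ℝ)| < a + E ∧ (Q : ℤ) ∣ x - c} with hA2
  set A3 : Set ℤ := {x : ℤ | 2 * a - E ≤ |(x : ℝ)| ∧ |(x : ℝ)| < 2 * a ∧ (Q : ℤ) ∣ x - c} with hA3
  set G : ℤ → Set ℤ := fun M => {x : ℤ | x ∈ S ∧ (Q : ℤ) ∣ x - c ∧ Mw m (wd d m r k x) = M ∧
        |(M : ℝ)| * a / (d : ℝ) ^ k ≤ |(((Tm d m r)^[k] x : ℤ) : ℝ)| ∧
        |(((Tm d m r)^[k] x : ℤ) : ℝ)| < 2 * (|(M : ℝ)| * a / (d : ℝ) ^ k)} with hG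
  have hsub : {x : ℤ | x ∈ S ∧ a ≤ |(x : ℝ)| ∧ |(x : ℝ)| < 2 * a ∧ (Q : ℤ) ∣ x - c}
      ⊆ ((A1 ∪ A2) ∪ A3) ∪ ⋃ M ∈ F, G M := by
    rintro x ⟨hxS, hx1, hx2, hxQ⟩
    by_cases hbad : wd d m r k x ∈ Bad
    · exact Or.inl (Or.inl (Or.inl ⟨hx1, hx2, hxQ, hbad⟩))
    have hmem := wd_mem (m := m) (r := r) hd2 k x
    have hM0 : Mw m (wd d m r k x) ≠ 0 := Mw_ne_zero h (mem_LW.1 hmem).2
    have hM1 : (1 : ℝ) ≤ |(Mw m (wd d m r k x) : ℝ)| := by
      have := Int.one_le_abs hM0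
      have h2 : ((1 : ℤ) : ℝ) ≤ ((|Mw m (wd d m r k x)| : ℤ) : ℝ) := by exact_mod_cast this
      rw [Int.cast_abs] at h2
      simpa using h2
    have hitR : (d : ℝ) ^ k * (((Tm d m r)^[k] x : ℤ) : ℝ)
        = (Mw m (wd d m r k x) : ℝ) * x - (Ww d m r (wd d m r k x) : ℝ) := by
      exact_mod_cast iter_eq h k x
    have hW := hV _ hmem hbad
    set Mx := Mw m (wd d m r k x) with hMx
    set z : ℝ := (((Tm d m r)^[k] x : ℤ) : ℝ) with hz
    set Wx : ℝ := (Ww d m r (wd d m r k x) : ℝ) with hWx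
    have habs1 : |(Mx : ℝ)| * |(x : ℝ)| ≤ (d : ℝ) ^ k * |z| + E := by
      have : (Mx : ℝ) * x = (d : ℝ) ^ k * z + Wx := by rw [hitR]; ring
      calc |(Mx : ℝ)| * |(x : ℝ)| = |(Mx : ℝ) * x| := (abs_mul _ _).symm
        _ = |(d : ℝ) ^ k * z + Wx| := by rw [this]
        _ ≤ |(d : ℝ) ^ k * z| + |Wx| := abs_add_le _ _
        _ ≤ (d : ℝ) ^ k * |z| + E := by
          rw [abs_mul, abs_of_pos hdk]
          linarith
    have habs2 : (d : ℝ) ^ k * |z| ≤ |(Mx : ℝ)| * |(x : ℝ)| + E := by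
      calc (d : ℝ) ^ k * |z| = |(d : ℝ) ^ k * z| := by rw [abs_mul, abs_of_pos hdk]
        _ = |(Mx : ℝ) * x - Wx| := by rw [hitR]
        _ ≤ |(Mx : ℝ) * x| + |Wx| := abs_sub _ _
        _ ≤ |(Mx : ℝ)| * |(x : ℝ)| + E := by
          rw [abs_mul]
          linarith
    by_cases hz1 : |(Mx : ℝ)| * a / (d : ℝ) ^ k ≤ |z|
    · by_cases hz2 : |z| < 2 * (|(Mx : ℝ)| * a / (d : ℝ) ^ k)
      · refine Or.inr ?_
        rw [Set.mem_iUnion₂]
        refine ⟨Mx, ?_, hxS, hxQ, rfl, hz1, hz2⟩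
        rw [hF, Finset.mem_filter]
        exact ⟨Finset.mem_image_of_mem _ hmem, hcnt _ hmem hbad⟩
      · -- `|z| ≥ 2 a'`
        refine Or.inl (Or.inr ⟨?_, hx2, hxQ⟩)
        rw [not_lt] at hz2
        have h1 : 2 * (|(Mx : ℝ)| * a) ≤ (d : ℝ) ^ k * |z| := by
          have := mul_le_mul_of_nonneg_left hz2 hdk.le
          have e : (d : ℝ) ^ k * (2 * (|(Mx : ℝ)| * a / (d : ℝ) ^ k)) = 2 * (|(Mx : ℝ)| * a) := by
            field_simp
          rwa [e] at this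
        have h2 : |(Mx : ℝ)| * (2 * a - |(x : ℝ)|) ≤ E := by nlinarith
        have h3 : 1 * (2 * a - |(x : ℝ)|) ≤ |(Mx : ℝ)| * (2 * a - |(x : ℝ)|) :=
          mul_le_mul_of_nonneg_right hM1 (by linarith)
        linarith
    · -- `|z| < a'`
      refine Or.inl (Or.inl (Or.inr ⟨hx1, ?_, hxQ⟩))
      rw [not_le] at hz1
      have h1 : (d : ℝ) ^ k * |z| < |(Mx : ℝ)| * a := by
        have := mul_lt_mul_of_pos_left hz1 hdk
        have e : (d : ℝ) ^ k * (|(Mx : ℝ)| * a / (d : ℝ) ^ k) = |(Mx : ℝ)| * a := by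
          field_simp
        rwa [e] at this
      have h2 : |(Mx : ℝ)| * (|(x : ℝ)| - a) < E := by nlinarith
      have h3 : 1 * (|(x : ℝ)| - a) ≤ |(Mx : ℝ)| * (|(x : ℝ)| - a) :=
        mul_le_mul_of_nonneg_right hM1 (by linarith)
      linarith
  -- finiteness
  have hw1 := win_le ha.le (by linarith : a ≤ 2 * a) hQ c
  have hw2 := win_le ha.le (by linarith : a ≤ a + E) hQ c
  have hw3 := win_le (a := 2 * a - E) (b := 2 * a) (by linarith) (by linarith) hQ c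
  have hfin1 : A1.Finite := hw1.1.subset (by
    rintro x ⟨h1, h2, h3, _⟩; exact ⟨h1, h2, h3⟩)
  have hfinG : ∀ M, (G M).Finite := by
    intro M
    apply (s3_fin h k (2 * (|(M : ℝ)| * a / (d : ℝ) ^ k))).subset
    rintro x ⟨_, _, _, _, h2⟩
    exact h2
  have hfinU : (((A1 ∪ A2) ∪ A3) ∪ ⋃ M ∈ F, G M).Finite := by
    refine ((hfin1.union hw2.1).union hw3.1).union ?_
    exact Set.Finite.biUnion F.finite_toSet fun M _ => hfinG M
  have hcard : ({x : ℤ | x ∈ S ∧ a ≤ |(x : ℝ)| ∧ |(x : ℝ)| < 2 * a ∧ (Q : ℤ) ∣ x - c}.ncard : ℕ)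
      ≤ A1.ncard + A2.ncard + A3.ncard + ∑ M ∈ F, (G M).ncard := by
    refine (Set.ncard_le_ncard hsub hfinU).trans ?_
    refine (Set.ncard_union_le _ _).trans ?_
    refine add_le_add ?_ (Finset.set_ncard_biUnion_le F G)
    refine (Set.ncard_union_le _ _).trans ?_
    exact add_le_add (Set.ncard_union_le _ _) le_rfl
  have hcardR : wc S a Q c ≤ (A1.ncard : ℝ) + A2.ncard + A3.ncard + ∑ M ∈ F, ((G M).ncard : ℝ) := by
    unfold wc
    exact_mod_cast hcard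
  have b1 : (A1.ncard : ℝ) ≤ Bad.card * (4 * a / ((d : ℝ) ^ k * Q)) :=
    bad_words h ha hQ hQd hk c Bad
  have b2 : (A2.ncard : ℝ) ≤ 2 * (E / Q + 1) := by
    have := hw2.2
    have e : a + E - a = E := by ring
    rwa [e] at this
  have b3 : (A3.ncard : ℝ) ≤ 2 * (E / Q + 1) := by
    have := hw3.2
    have e : 2 * a - (2 * a - E) = E := by ring
    rwa [e] at this
  have b4 : ∑ M ∈ F, ((G M).ncard : ℝ) ≤ ρ * (2 * a) / Q + 4 * a / ((d : ℝ) ^ k * Q) *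
        ∑ M ∈ F, tv (gr d m k M) (Ww d m r) Q₀ (M.natAbs * Q) := by
    have hFM : ∀ M ∈ F, M ∈ Ms d m k := fun M hM => (Finset.mem_filter.1 hM).1
    calc ∑ M ∈ F, ((G M).ncard : ℝ)
        ≤ ∑ M ∈ F, (ρ * (gr d m k M).card * (2 * a) / ((d : ℝ) ^ k * Q)
          + 4 * a / ((d : ℝ) ^ k * Q) * tv (gr d m k M) (Ww d m r) Q₀ (M.natAbs * Q)) := by
          apply Finset.sum_le_sum
          intro M hM
          exact group_count h hS ha hQ hQ₀ hQQ hQd hk c (hFM M hM) hρ (hPB M hM)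
      _ = (∑ M ∈ F, ((gr d m k M).card : ℝ)) * (ρ * (2 * a) / ((d : ℝ) ^ k * Q))
          + 4 * a / ((d : ℝ) ^ k * Q) * ∑ M ∈ F, tv (gr d m k M) (Ww d m r) Q₀ (M.natAbs * Q) := by
          rw [Finset.sum_add_distrib, Finset.mul_sum, Finset.sum_mul]
          congr 1
          apply Finset.sum_congr rfl
          intro M _
          ring
      _ ≤ (d : ℝ) ^ k * (ρ * (2 * a) / ((d : ℝ) ^ k * Q))
          + 4 * a / ((d : ℝ) ^ k * Q) * ∑ M ∈ F, tv (gr d m k M) (Ww d m r) Q₀ (M.natAbs * Q) := by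
          apply add_le_add _ le_rfl
          apply mul_le_mul_of_nonneg_right _ (by positivity)
          rw [← sum_card_gr (d := d) (m := m) k]
          apply Finset.sum_le_sum_of_subset_of_nonneg
          · intro M hM; exact hFM M hM
          · intro M _ _; positivity
      _ = _ := by
          congr 1
          field_simp
  linarith

theorem s3_params {D ld lP δ : ℝ} (hD : 2 ≤ D) (hld : 1 / 2 < ld) (hlP : 0 < lP)
    (hc : lP < D * ld) (hδ0 : 0 < δ) (hδ1 : δ ≤ 1) :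
    ∃ hi ν η L₀ : ℝ, 1 / 4 ≤ hi ∧ hi < 1 ∧ 0 < ν ∧ 0 < η ∧ η ≤ 1 ∧ 144 ≤ L₀ ∧
      ∀ t : ℝ, L₀ ≤ t → ∀ k q q₀ i₁ i₂ : ℕ, k = ⌊3 / 4 * t / ld⌋₊ → q = ⌊ν * t⌋₊ →
        q₀ = ⌊ν * (t / 4)⌋₊ → i₁ = ⌊(1 - η) * k / D⌋₊ → i₂ = ⌈(1 + η) * k / D⌉₊ →
        1 ≤ k ∧ ν * ld / 8 * k ≤ q₀ ∧ q₀ ≤ q ∧ (q : ℝ) ≤ k ∧ i₁ ≤ i₂ ∧
        ((i₂ + q : ℕ) : ℝ) ≤ (1 + δ) * ((i₁ + q : ℕ) : ℝ) ∧
        (1 - δ) * D * ((i₁ + q : ℕ) : ℝ) ≤ k ∧ q * lP ≤ t / 4 ∧ t / 2 ≤ k * ld ∧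
        k * ld ≤ 3 / 4 * t ∧ ∀ l : ℝ, l ≤ i₂ * lP → l + t - k * ld ≤ hi * t := by
  have hld0 : 0 < ld := by linarith
  have hD0 : 0 < D := by linarith
  set ν : ℝ := δ / (4 * D * ld) with hν
  have hν0 : 0 < ν := by positivity
  have hgap : 0 < D * ld - lP := by linarith
  set κ : ℝ := (D * ld - lP) / (2 * D * ld) with hκ
  have hκ0 : 0 < κ := by positivity
  have hκ1 : κ ≤ 1 / 2 := by
    rw [hκ, div_le_iff₀ (by positivity)]; linarith
  set η : ℝ := min (δ / 8) ((D * ld - lP) / (2 * lP)) with hη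
  have hη0 : 0 < η := lt_min (by positivity) (by positivity)
  have hη8 : η ≤ δ / 8 := min_le_left _ _
  have hηP : η * lP ≤ (D * ld - lP) / 2 := by
    have : η ≤ (D * ld - lP) / (2 * lP) := min_le_right _ _
    have h2 := mul_le_mul_of_nonneg_right this hlP.le
    have e : (D * ld - lP) / (2 * lP) * lP = (D * ld - lP) / 2 := by field_simp
    rwa [e] at h2
  refine ⟨1 - κ / 4, ν, η, 144 + 4 * ld + 8 / ν + 12 * D * ld / δ + 4 * lP / κ,
    by linarith, by linarith, hν0, hη0, by linarith, ?_, ?_⟩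
  · have h1 : 0 < 8 / ν := by positivity
    have h2 : 0 < 12 * D * ld / δ := by positivity
    have h3 : 0 < 4 * lP / κ := by positivity
    linarith
  intro t ht k q q₀ i₁ i₂ hk hq hq₀ hi₁ hi₂
  have p1 : 0 < 8 / ν := by positivity
  have p2 : 0 < 12 * D * ld / δ := by positivity
  have p3 : 0 < 4 * lP / κ := by positivity
  have ht144 : 144 ≤ t := by linarith
  have ht0 : 0 < t := by linarith
  have ht1 : 4 * ld ≤ t := by linarith
  have ht2 : 8 / ν ≤ t := by linarith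
  have ht3 : 12 * D * ld / δ ≤ t := by linarith
  have ht4 : 4 * lP / κ ≤ t := by linarith
  have ht2' : 8 ≤ ν * t := by
    rw [div_le_iff₀ hν0] at ht2; linarith
  have ht3' : 12 * D * ld ≤ δ * t := by
    rw [div_le_iff₀ hδ0] at ht3; linarith
  have ht4' : 4 * lP ≤ κ * t := by
    rw [div_le_iff₀ hκ0] at ht4; linarith
  -- k
  have hkle : (k : ℝ) * ld ≤ 3 / 4 * t := by
    have h1 : (k : ℝ) ≤ 3 / 4 * t / ld := by rw [hk]; exact Nat.floor_le (by positivity)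
    rwa [le_div_iff₀ hld0] at h1
  have hkge : 3 / 4 * t - ld < (k : ℝ) * ld := by
    have h1 : 3 / 4 * t / ld < (k : ℝ) + 1 := by rw [hk]; exact Nat.lt_floor_add_one _
    rw [div_lt_iff₀ hld0] at h1
    linarith
  have hk2 : t / 2 ≤ (k : ℝ) * ld := by linarith
  have hk1 : (1 : ℝ) ≤ k := by
    by_contra hcon
    rw [not_le] at hcon
    have : (k : ℝ) * ld < 1 * ld := mul_lt_mul_of_pos_right hcon hld0
    linarith
  have hkpos : (0 : ℝ) < k := by linarith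
  -- q
  have hqle : (q : ℝ) ≤ ν * t := by rw [hq]; exact Nat.floor_le (by positivity)
  have hq0ge : ν * t / 4 - 1 ≤ (q₀ : ℝ) := by
    have : ν * (t / 4) < (q₀ : ℝ) + 1 := by rw [hq₀]; exact Nat.lt_floor_add_one _
    linarith
  have hνD : ν * (D * ld) = δ / 4 := by rw [hν]; field_simp
  have hνt : D * (ν * t) ≤ δ * k / 2 := by
    have e : D * (ν * t) * ld = δ / 4 * t := by rw [← hνD]; ring
    have h1 : D * (ν * t) * ld ≤ δ * k / 2 * ld := by
      rw [e]; linarith [mul_le_mul_of_nonneg_left hk2 hδ0.le]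
    exact le_of_mul_le_mul_right h1 hld0
  have hD1 : (1 : ℝ) ≤ D := by linarith
  have hνt0 : 0 ≤ ν * t := by positivity
  have hqk : (q : ℝ) ≤ k := by
    have h1 : 1 * (ν * t) ≤ D * (ν * t) := mul_le_mul_of_nonneg_right hD1 hνt0
    have h2 : δ * k ≤ 1 * k := mul_le_mul_of_nonneg_right hδ1 hkpos.le
    linarith
  -- i₁, i₂
  set y : ℝ := k / D with hy
  have hy0 : 0 < y := by positivity
  have hyD : y * D = k := by rw [hy]; field_simp
  have hδy : 6 ≤ δ * y := by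
    have h1 : 6 * D ≤ δ * k := by
      have h2 : 6 * D * ld ≤ δ * k * ld := by
        linarith [mul_le_mul_of_nonneg_left hk2 hδ0.le]
      exact le_of_mul_le_mul_right h2 hld0
    have h3 : 6 * D ≤ (δ * y) * D := by rw [mul_assoc, hyD]; exact h1
    exact le_of_mul_le_mul_right h3 hD0
  have ei1 : (1 - η) * k / D = (1 - η) * y := by rw [hy]; ring
  have ei2 : (1 + η) * k / D = (1 + η) * y := by rw [hy]; ring
  rw [ei1] at hi₁
  rw [ei2] at hi₂
  have hη1 : η ≤ 1 / 8 := by linarith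
  have hi1le : (i₁ : ℝ) ≤ (1 - η) * y := by
    rw [hi₁]; exact Nat.floor_le (mul_nonneg (by linarith) hy0.le)
  have hi1ge : (1 - η) * y - 1 ≤ (i₁ : ℝ) := by
    have : (1 - η) * y < (i₁ : ℝ) + 1 := by rw [hi₁]; exact Nat.lt_floor_add_one _
    linarith
  have hi2ge : (1 + η) * y ≤ (i₂ : ℝ) := by rw [hi₂]; exact Nat.le_ceil _
  have hi2le : (i₂ : ℝ) ≤ (1 + η) * y + 1 := by
    rw [hi₂]; exact (Nat.ceil_lt_add_one (by positivity)).le
  refine ⟨by exact_mod_cast hk1, ?_, ?_, hqk, ?_, ?_, ?_, ?_, hk2, hkle, ?_⟩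
  · -- ν ld / 8 * k ≤ q₀
    have h1 : ν * ld / 8 * k ≤ ν * t / 8 := by
      have : ν * (k * ld) ≤ ν * (3 / 4 * t) := mul_le_mul_of_nonneg_left hkle hν0.le
      linarith
    linarith
  · rw [hq, hq₀]
    apply Nat.floor_le_floor
    linarith
  · have h1 : (i₁ : ℝ) ≤ i₂ := by
      have : 0 ≤ η * y := by positivity
      linarith
    exact_mod_cast h1
  · push_cast
    have hq0 : (0 : ℝ) ≤ q := by positivity
    have h1 : (1 + δ) * ((1 - η) * y - 1) ≤ (1 + δ) * i₁ :=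
      mul_le_mul_of_nonneg_left hi1ge (by linarith)
    have h2 : (1 + η) * y + 1 ≤ (1 + δ) * ((1 - η) * y - 1) := by
      have h3 : η * y ≤ δ / 8 * y := mul_le_mul_of_nonneg_right hη8 hy0.le
      have h4 : δ * (η * y) ≤ 1 * (η * y) := mul_le_mul_of_nonneg_right hδ1 (by positivity)
      linarith
    have h5 : 0 ≤ δ * q := by positivity
    linarith
  · push_cast
    have h1 : D * i₁ ≤ k := by
      have h2 : D * i₁ ≤ D * ((1 - η) * y) := mul_le_mul_of_nonneg_left hi1le hD0.le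
      have h3 : D * ((1 - η) * y) = (1 - η) * k := by rw [← hyD]; ring
      have h4 : 0 ≤ η * k := by positivity
      linarith
    have h2 : D * q ≤ δ * k / 2 := by
      have : D * q ≤ D * (ν * t) := mul_le_mul_of_nonneg_left hqle hD0.le
      linarith
    have h3 : (1 - δ) * D * (i₁ + q) = (1 - δ) * (D * i₁ + D * q) := by ring
    rw [h3]
    have h4 : (1 - δ) * (D * i₁ + D * q) ≤ (1 - δ) * (k + δ * k / 2) :=
      mul_le_mul_of_nonneg_left (by linarith) (by linarith)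
    have h5 : (1 - δ) * (k + δ * k / 2) = k - δ * k / 2 - δ * δ * k / 2 := by ring
    have h6 : 0 ≤ δ * k / 2 := by positivity
    have h7 : 0 ≤ δ * δ * k / 2 := by positivity
    linarith
  · have h1 : (q : ℝ) * lP ≤ ν * t * (D * ld) :=
      mul_le_mul hqle hc.le hlP.le hνt0
    have h2 : ν * t * (D * ld) = δ / 4 * t := by rw [← hνD]; ring
    have h3 : δ * t ≤ 1 * t := mul_le_mul_of_nonneg_right hδ1 ht0.le
    linarith
  · intro l hl
    have h1 : (i₂ : ℝ) * lP ≤ ((1 + η) * y + 1) * lP := mul_le_mul_of_nonneg_right hi2le hlP.le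
    have h2 : (1 + η) * y * lP ≤ y * ((D * ld + lP) / 2) := by
      linarith [mul_le_mul_of_nonneg_left hηP hy0.le]
    have h3 : y * ((D * ld + lP) / 2) = k * ld - y * ((D * ld - lP) / 2) := by
      rw [← hyD]; ring
    have h4 : y * ((D * ld - lP) / 2) = κ * (k * ld) := by
      rw [hκ, ← hyD]; field_simp
    have h5 : κ * (t / 2) ≤ κ * (k * ld) := mul_le_mul_of_nonneg_left hk2 hκ0.le
    linarith


open scoped Classical in
/-- the one stage inequality -/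
theorem stage (h : Adm d m r) (B : ℕ) : ∃ lo hi ν L₀ C : ℝ, 0 < lo ∧ lo ≤ hi ∧ hi < 1 ∧ 0 < ν ∧
    1 ≤ L₀ ∧ 0 < C ∧ ∀ S : Set ℤ, (∀ x ∈ S, Tm d m r x ∈ S) → ∀ a ρ : ℝ, 0 < a → L₀ ≤ Real.log a →
      0 ≤ ρ →
      (∀ a' : ℝ, 0 < a' → lo * Real.log a ≤ Real.log a' → Real.log a' ≤ hi * Real.log a →
        PB S a' (PP d m ^ ⌊ν * Real.log a'⌋₊) ρ) →
      PB S a (PP d m ^ ⌊ν * Real.log a⌋₊) (ρ + C / (Real.log a) ^ B) := by
  have hd2 : 2 ≤ d := h.two_le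
  have hdR2 : (2 : ℝ) ≤ d := by exact_mod_cast hd2
  have hdR0 : (0 : ℝ) < d := by linarith
  have hPR2 : (2 : ℝ) ≤ PP d m := by exact_mod_cast h.big
  have hPR0 : (0 : ℝ) < PP d m := by linarith
  have hP0 : 0 < PP d m := by have := h.big; omega
  have hld : 1 / 2 < Real.log d := by
    have h1 : Real.log 2 ≤ Real.log d := Real.log_le_log (by norm_num) hdR2
    have h2 := Real.log_two_gt_d9
    linarith
  have hld0 : 0 < Real.log d := by linarith
  have hlP : 0 < Real.log (PP d m) := Real.log_pos (by linarith)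
  have hc : Real.log (PP d m) < d * Real.log d := by
    have h1 : ((PP d m : ℕ) : ℝ) < (d : ℝ) ^ d := by exact_mod_cast h.contr
    have h2 := Real.log_lt_log hPR0 h1
    rwa [Real.log_pow] at h2
  obtain ⟨δ, hδ0, hδ1, htv⟩ := tv_groups h B
  obtain ⟨hi, ν, η, L₀, hhi1, hhi2, hν0, hη0, hη1, hL, hpar⟩ :=
    s3_params (D := d) (ld := Real.log d) (lP := Real.log (PP d m)) hdR2 hld hlP hc hδ0 hδ1
  obtain ⟨Ct, hCt, htvC⟩ := htv (ν * Real.log d / 8) (by positivity)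
  obtain ⟨ct, hct, htyp⟩ := typical hd2 (η := η / d) (by positivity)
  obtain ⟨lam, Cm, hlam, hCm, hmom⟩ := moment h
  obtain ⟨K1, hK1, hexp1⟩ := s3_exp (ct / √(2 * Real.log d)) (by positivity) B
  obtain ⟨K2, hK2, hexp2⟩ := s3_exp (lam / √(2 * Real.log d)) (by positivity) B
  obtain ⟨K3, hK3, hexp3⟩ := s3_exp 1 one_pos B
  set C : ℝ := 4 * (2 * d * K1 + Cm * K2) + 8 * K3 + 4 * (Ct * (2 * Real.log d) ^ B) with hC
  have hC0 : 0 < C := by positivity
  refine ⟨1 / 4, hi, ν, L₀, C, by norm_num, hhi1, hhi2, hν0, by linarith, hC0, ?_⟩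
  intro S hS a ρ ha hLa hρ hyp
  set t : ℝ := Real.log a with ht
  have ht144 : 144 ≤ t := hL.trans hLa
  have ht0 : 0 < t := by linarith
  have haexp : a = Real.exp t := (Real.exp_log ha).symm
  obtain ⟨hk1, hνk, hq0q, hqk, hi12, hi2q, hi1q, hqlP, hk2, hkle, hM⟩ :=
    hpar t hLa _ _ _ _ _ rfl rfl rfl rfl rfl
  set k : ℕ := ⌊3 / 4 * t / Real.log d⌋₊ with hk
  set q : ℕ := ⌊ν * t⌋₊ with hq
  set q₀ : ℕ := ⌊ν * (t / 4)⌋₊ with hq₀
  set i₁ : ℕ := ⌊(1 - η) * k / d⌋₊ with hi₁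
  set i₂ : ℕ := ⌈(1 + η) * k / d⌉₊ with hi₂
  intro c
  have hkR1 : (1 : ℝ) ≤ k := by exact_mod_cast hk1
  have hkR0 : (0 : ℝ) < k := by linarith
  -- exponentials
  have hdk : (d : ℝ) ^ k = Real.exp (k * Real.log d) := by
    rw [Real.exp_nat_mul, Real.exp_log hdR0]
  have hPq : ((PP d m ^ q : ℕ) : ℝ) = Real.exp (q * Real.log (PP d m)) := by
    rw [Real.exp_nat_mul, Real.exp_log hPR0, Nat.cast_pow]
  have hdk0 : (0 : ℝ) < (d : ℝ) ^ k := by positivity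
  have hQ0 : 0 < PP d m ^ q := pow_pos hP0 q
  have hQR : (0 : ℝ) < ((PP d m ^ q : ℕ) : ℝ) := by exact_mod_cast hQ0
  have hst : √t * √t = t := Real.mul_self_sqrt ht0.le
  have hst12 : 12 ≤ √t := by
    apply Real.le_sqrt_of_sq_le; linarith
  have hkQ : (d : ℝ) ^ k * ((PP d m ^ q : ℕ) : ℝ) ≤ a := by
    rw [hdk, hPq, haexp, ← Real.exp_add]
    apply Real.exp_le_exp.2
    linarith
  have hk4 : (k : ℝ) ≤ 4 * t := by
    have : (k : ℝ) * (1 / 2) ≤ k * Real.log d := mul_le_mul_of_nonneg_left hld.le hkR0.le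
    linarith
  have hsk : √(k : ℝ) ≤ 2 * √t := by
    have h1 : √(k : ℝ) ≤ √(4 * t) := Real.sqrt_le_sqrt hk4
    have h2 : √(4 * t) = 2 * √t := by
      rw [Real.sqrt_mul (by norm_num), show (4 : ℝ) = 2 ^ 2 by norm_num,
        Real.sqrt_sq (by norm_num)]
    rwa [h2] at h1
  have hE : (d : ℝ) ^ k * Real.exp (√(k : ℝ)) ≤ a * Real.exp (-(1 * √t)) := by
    rw [hdk, haexp, ← Real.exp_add, ← Real.exp_add]
    apply Real.exp_le_exp.2
    nlinarith
  have hQa : ((PP d m ^ q : ℕ) : ℝ) ≤ a * Real.exp (-(1 * √t)) := by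
    rw [hPq, haexp, ← Real.exp_add]
    apply Real.exp_le_exp.2
    nlinarith
  have hexple : Real.exp (-(1 * √t)) ≤ 1 := by
    rw [Real.exp_le_one_iff]
    linarith [Real.sqrt_nonneg t]
  have hskge : √t / √(2 * Real.log d) ≤ √(k : ℝ) := by
    rw [← Real.sqrt_div ht0.le]
    apply Real.sqrt_le_sqrt
    rw [div_le_iff₀ (by positivity)]
    linarith
  -- small terms
  have hs1 : Real.exp (-(ct * k)) ≤ K1 / t ^ B := by
    refine le_trans (Real.exp_le_exp.2 ?_) (hexp1 t ht0)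
    have h1 : √(k : ℝ) ≤ k := by
      have h2 : √(k : ℝ) * √(k : ℝ) = k := Real.mul_self_sqrt hkR0.le
      have h3 : 1 ≤ √(k : ℝ) := Real.one_le_sqrt.2 hkR1
      nlinarith
    have h4 : ct / √(2 * Real.log d) * √t = ct * (√t / √(2 * Real.log d)) := by ring
    rw [h4]
    have h5 : ct * (√t / √(2 * Real.log d)) ≤ ct * k :=
      mul_le_mul_of_nonneg_left (hskge.trans h1) hct.le
    linarith
  have hs2 : Real.exp (-(lam * √(k : ℝ))) ≤ K2 / t ^ B := by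
    refine le_trans (Real.exp_le_exp.2 ?_) (hexp2 t ht0)
    have h4 : lam / √(2 * Real.log d) * √t = lam * (√t / √(2 * Real.log d)) := by ring
    rw [h4]
    have h5 := mul_le_mul_of_nonneg_left hskge hlam.le
    linarith
  have hs3 : Real.exp (-(1 * √t)) ≤ K3 / t ^ B := hexp3 t ht0
  have hs4 : 1 / (k : ℝ) ^ B ≤ (2 * Real.log d) ^ B / t ^ B := by
    rw [div_le_div_iff₀ (by positivity) (by positivity), one_mul, ← mul_pow]
    apply pow_le_pow_left₀ ht0.le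
    linarith
  -- the bad words
  set Bad : Finset (List ℕ) :=
    ((LW d k).filter fun w => ∃ i < d, η / d * k < |(w.count i : ℝ) - k / d|) ∪
    ((LW d k).filter fun w => (d : ℝ) ^ k * Real.exp (√(k : ℝ)) < |(Ww d m r w : ℝ)|) with hBad
  have hBadcard : (Bad.card : ℝ) ≤ (d : ℝ) ^ k *
      (2 * d * Real.exp (-(ct * k)) + Cm * Real.exp (-(lam * √(k : ℝ)))) := by
    have h1 : (Bad.card : ℝ) ≤
        (((LW d k).filter fun w => ∃ i < d, η / d * k < |(w.count i : ℝ) - k / d|).card : ℝ) +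
        (((LW d k).filter fun w =>
          (d : ℝ) ^ k * Real.exp (√(k : ℝ)) < |(Ww d m r w : ℝ)|).card : ℝ) := by
      rw [← Nat.cast_add]
      exact Nat.cast_le.2 (Finset.card_union_le _ _)
    have h2 := htyp k
    have h3 := hmom k
    have h4 : (d : ℝ) ^ k * (2 * d * Real.exp (-(ct * k)) + Cm * Real.exp (-(lam * √(k : ℝ))))
      = 2 * d * ((d : ℝ) ^ k * Real.exp (-(ct * k)))
        + Cm * (d : ℝ) ^ k * Real.exp (-(lam * √(k : ℝ))) := by ring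
    rw [h4]
    exact h1.trans (add_le_add h2 h3)
  have hV : ∀ w ∈ LW d k, w ∉ Bad → |(Ww d m r w : ℝ)| ≤ (d : ℝ) ^ k * Real.exp (√(k : ℝ)) := by
    intro w hw hwB
    by_contra hcon
    rw [not_le] at hcon
    exact hwB (Finset.mem_union_right _ (Finset.mem_filter.2 ⟨hw, hcon⟩))
  have hcnt : ∀ w ∈ LW d k, w ∉ Bad →
      PP d m ^ i₁ ∣ (Mw m w).natAbs ∧ (Mw m w).natAbs ∣ PP d m ^ i₂ := by
    intro w hw hwB
    have hcw : ∀ i < d, |(w.count i : ℝ) - k / d| ≤ η / d * k := by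
      intro i hid
      by_contra hcon
      rw [not_le] at hcon
      exact hwB (Finset.mem_union_left _ (Finset.mem_filter.2 ⟨hw, i, hid, hcon⟩))
    constructor
    · apply dvd_Mw hw
      intro i hid
      have h1 := (abs_le.1 (hcw i hid)).1
      rw [hi₁]
      apply Nat.floor_le_of_le
      have e : (1 - η) * (k : ℝ) / d = k / d - η / d * k := by ring
      rw [e]
      linarith
    · apply Mw_dvd hw
      intro i hid
      have h1 := (abs_le.1 (hcw i hid)).2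
      have h2 : (w.count i : ℝ) ≤ i₂ := by
        refine le_trans ?_ (Nat.le_ceil _)
        have e : (1 + η) * (k : ℝ) / d = k / d + η / d * k := by ring
        rw [e]
        linarith
      exact_mod_cast h2
  have hPB : ∀ M ∈ (Ms d m k).filter (fun M => PP d m ^ i₁ ∣ M.natAbs ∧ M.natAbs ∣ PP d m ^ i₂),
      PB S (|(M : ℝ)| * a / (d : ℝ) ^ k) (PP d m ^ q₀) ρ := by
    intro M hMF
    rw [Finset.mem_filter] at hMF
    obtain ⟨hMs, _, hMi2⟩ := hMF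
    have hMpos : 0 < M.natAbs := Nat.pos_of_dvd_of_pos hMi2 (pow_pos hP0 _)
    have hMabs : ((M.natAbs : ℕ) : ℝ) = |(M : ℝ)| := by rw [Nat.cast_natAbs, Int.cast_abs]
    have hM1 : (1 : ℝ) ≤ |(M : ℝ)| := by rw [← hMabs]; exact_mod_cast hMpos
    have hM2 : |(M : ℝ)| ≤ (PP d m : ℝ) ^ i₂ := by
      rw [← hMabs]; exact_mod_cast Nat.le_of_dvd (pow_pos hP0 _) hMi2
    have hM0 : (0 : ℝ) < |(M : ℝ)| := by linarith
    set a' : ℝ := |(M : ℝ)| * a / (d : ℝ) ^ k with ha'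
    have ha'0 : 0 < a' := by positivity
    have hlog : Real.log a' = Real.log |(M : ℝ)| + t - k * Real.log d := by
      rw [ha', Real.log_div (by positivity) (by positivity), Real.log_mul hM0.ne' ha.ne',
        Real.log_pow]
    have hl0 : 0 ≤ Real.log |(M : ℝ)| := Real.log_nonneg hM1
    have hl2 : Real.log |(M : ℝ)| ≤ i₂ * Real.log (PP d m) := by
      have := Real.log_le_log hM0 hM2
      rwa [Real.log_pow] at this
    have hge : 1 / 4 * t ≤ Real.log a' := by rw [hlog]; linarith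
    have hle : Real.log a' ≤ hi * t := by rw [hlog]; exact hM _ hl2
    refine PB.coarse ha'0 (pow_pos hP0 _) (pow_dvd_pow _ ?_) (hyp a' ha'0 hge hle)
    rw [hq₀]
    apply Nat.floor_le_floor
    have := mul_le_mul_of_nonneg_left hge hν0.le
    linarith
  have hcount := s3_count h hS ha (k := k) (Q := PP d m ^ q) (Q₀ := PP d m ^ q₀) (i₁ := i₁)
    (i₂ := i₂) hQ0 (pow_pos hP0 _) (pow_dvd_pow _ hq0q) ?_ hkQ c hρ Bad
    (V := Real.exp (√(k : ℝ))) (Real.exp_pos _).le ?_ hV hcnt hPB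
  · have htvk := htvC k i₁ i₂ q₀ q hk1 hνk hq0q hqk hi12 hi2q hi1q
    set T : ℝ := ∑ M ∈ (Ms d m k).filter
      (fun M => PP d m ^ i₁ ∣ M.natAbs ∧ M.natAbs ∣ PP d m ^ i₂),
        tv (gr d m k M) (Ww d m r) (PP d m ^ q₀) (M.natAbs * PP d m ^ q) with hT
    set Q : ℝ := ((PP d m ^ q : ℕ) : ℝ) with hQdef
    set u : ℝ := a / Q with hu
    have hu0 : 0 < u := by positivity
    have e1 : 4 * a / ((d : ℝ) ^ k * Q) = 4 * u / (d : ℝ) ^ k := by
      rw [hu]; field_simp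
    have t1 : (Bad.card : ℝ) * (4 * a / ((d : ℝ) ^ k * Q)) ≤ (2 * d * (K1 / t ^ B) + Cm * (K2 / t ^ B)) * (4 * u) := by
      rw [e1]
      have h1 : (Bad.card : ℝ) ≤ (d : ℝ) ^ k * (2 * d * (K1 / t ^ B) + Cm * (K2 / t ^ B)) := by
        refine hBadcard.trans (mul_le_mul_of_nonneg_left ?_ hdk0.le)
        exact add_le_add (mul_le_mul_of_nonneg_left hs1 (by positivity))
          (mul_le_mul_of_nonneg_left hs2 hCm.le)
      have h2 := mul_le_mul_of_nonneg_right h1 (show (0 : ℝ) ≤ 4 * u / (d : ℝ) ^ k by positivity)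
      refine h2.trans (le_of_eq ?_)
      field_simp
    have t2 : 4 * ((d : ℝ) ^ k * Real.exp (√(k : ℝ)) / Q + 1) ≤ 8 * (K3 / t ^ B) * u := by
      have h1 : (d : ℝ) ^ k * Real.exp (√(k : ℝ)) / Q ≤ u * Real.exp (-(1 * √t)) := by
        rw [hu, div_mul_eq_mul_div]
        exact div_le_div_of_nonneg_right hE hQR.le
      have h2 : 1 ≤ u * Real.exp (-(1 * √t)) := by
        rw [hu, div_mul_eq_mul_div, le_div_iff₀ hQR, one_mul]
        exact hQa
      have h3 : u * Real.exp (-(1 * √t)) ≤ u * (K3 / t ^ B) :=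
        mul_le_mul_of_nonneg_left hs3 hu0.le
      linarith
    have t3 : ρ * (2 * a) / Q = 2 * ρ * u := by rw [hu]; ring
    have t4 : 4 * a / ((d : ℝ) ^ k * Q) * T ≤ 4 * (Ct * ((2 * Real.log d) ^ B / t ^ B)) * u := by
      rw [e1]
      have h1 : T ≤ Ct * (d : ℝ) ^ k * (1 / (k : ℝ) ^ B) := by
        refine htvk.trans (le_of_eq ?_); ring
      have h2 : T ≤ Ct * (d : ℝ) ^ k * ((2 * Real.log d) ^ B / t ^ B) :=
        h1.trans (mul_le_mul_of_nonneg_left hs4 (by positivity))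
      have h3 := mul_le_mul_of_nonneg_left h2 (show (0 : ℝ) ≤ 4 * u / (d : ℝ) ^ k by positivity)
      refine h3.trans (le_of_eq ?_)
      field_simp
    have goal : (ρ + C / t ^ B) * (2 * a) / Q = 2 * ρ * u + 2 * (C / t ^ B) * u := by
      rw [hu]; ring
    rw [goal]
    have hCexp : C / t ^ B = 4 * (2 * d * (K1 / t ^ B) + Cm * (K2 / t ^ B)) + 8 * (K3 / t ^ B)
        + 4 * (Ct * ((2 * Real.log d) ^ B / t ^ B)) := by
      rw [hC]; ring
    have hCpos : 0 ≤ C / t ^ B * u := by positivity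
    have hfin : (2 * d * (K1 / t ^ B) + Cm * (K2 / t ^ B)) * (4 * u) + 8 * (K3 / t ^ B) * u
        + 4 * (Ct * ((2 * Real.log d) ^ B / t ^ B)) * u = C / t ^ B * u := by
      rw [hCexp]; ring
    linarith
  · -- coprimality
    apply Nat.Coprime.pow_left
    unfold PP
    apply Nat.Coprime.prod_left
    intro i hir
    have := h.cop i (Finset.mem_range.1 hir)
    rw [Int.isCoprime_iff_gcd_eq_one] at this
    have h2 : Int.gcd (m i) (d : ℤ) = Nat.gcd (m i).natAbs d := by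
      rw [Int.gcd_def]; simp
    rw [h2] at this
    exact this
  · calc (d : ℝ) ^ k * Real.exp (√(k : ℝ)) ≤ a * Real.exp (-(1 * √t)) := hE
      _ ≤ a * 1 := mul_le_mul_of_nonneg_left hexple ha.le
      _ = a := mul_one a

end Pool.Agent.H319R3.GC
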